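import Pool.Agent.H683.BW.Comp2
import Pool.Graph.R_seed8.NPC.Dec

/-!
# The verifier
-/

set_option autoImplicit false

namespace Pool.Agent.H683.BW

open Pool.Agent.NPC Pool.Agent.H633R2

/-- Capped exponents. -/
def evC (ch : List (List ℕ)) (s : Spec) : ℕ := min (evS (ch.map List.length) s) ch.flatten.length

/-- The run of the monitor as a left fold. -/
def runF (k B : ℕ) (E : ℕ → ℕ → Bool) (z : List ℕ) : Option (List ℕ) :=
  z.foldl (fun o a => o.bind fun q => mstep k B E q a) (some (List.replicate k 0))

theorem foldl_bind {Q α : Type} (step : Q → α → Option Q) (z : List α) (o : Option Q) :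
    z.foldl (fun o a => o.bind fun q => step q a) o = o.bind fun q => run step q z := by
  induction z generalizing o with
  | nil => cases o <;> rfl
  | cons a z ih =>
    rw [List.foldl_cons, ih]
    cases o <;> rfl

theorem runF_eq (k B : ℕ) (E : ℕ → ℕ → Bool) (z : List ℕ) :
    runF k B E z = run (mstep k B E) (List.replicate k 0) z := foldl_bind _ _ _

/-- The verifier. -/
def chk (M : List (List Bool)) (B : ℕ) (W : Cert) : Bool :=
  (List.range (chs M).length).all (fun c =>
    decide (((expandS (evC (chs M)) W).filter fun a => decide (a = c)).length =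
      ((chs M).getD c []).length)) &&
  (runF (chs M).length (min B (2 * (chs M).length)) (EE (entry M) (chs M))
    (expandS (evC (chs M)) W)).isSome

theorem count_eq_filter (z : List ℕ) (c : ℕ) :
    z.count c = (z.filter fun a => decide (a = c)).length := by
  rw [List.count_eq_length_filter]
  congr 1

theorem chk_iff (M : List (List Bool)) (B : ℕ) (W : Cert) : chk M B W = true ↔
    WordOk (entry M) (chs M) (min B (2 * (chs M).length)) (expandS (evC (chs M)) W) := by
  unfold chk WordOk
  rw [Bool.and_eq_true, List.all_eq_true, runF_eq]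
  constructor
  · rintro ⟨h1, h2⟩
    refine ⟨fun c => ?_, h2⟩
    by_cases hc : c < (chs M).length
    · have := h1 c (List.mem_range.2 hc)
      rw [decide_eq_true_iff, ← count_eq_filter] at this
      exact this
    · obtain ⟨f, hf⟩ := Option.isSome_iff_exists.1 h2
      rw [List.count_eq_zero_of_not_mem, List.getD_eq_default _ _ (by omega), List.length_nil]
      intro hmem
      exact hc (run_lt hf c hmem)
  · rintro ⟨h1, h2⟩
    refine ⟨fun c _ => ?_, h2⟩
    rw [decide_eq_true_iff, ← count_eq_filter]
    exact h1 c

theorem exists_chk (hORD : S_ORD) (hCH : S_CH) (hLEV : S_LEV) (hEQ1 : S_EQ1) (hP : S_PUMP)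
    (hC : S_CAR) (hG : S_GRAM) (M : List (List Bool)) (B : ℕ) (hM : IsDirTree M)
    (h : DirBandwidth (M, B)) : ∃ W : Cert, sz W ≤ FF (chs M).length ∧ chk M B W = true := by
  have hdec := hCH M hM
  have h1 : Ord M.length (entry M) (min B (2 * (chs M).length)) := by
    rcases Nat.le_total B (2 * (chs M).length) with h2 | h2
    · rw [min_eq_left h2]
      exact (hORD M B).1 h
    · rw [min_eq_right h2]
      exact hLEV M _ hM hdec
  obtain ⟨z, hz⟩ := hEQ1 _ _ _ _ hdec h1
  obtain ⟨W, hsz, hW, hne⟩ := exists_cert hP hC hG _ _ _ (min_le_right _ _) z hz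
  refine ⟨W, hsz, ?_⟩
  rw [chk_iff]
  have key : expandS (evC (chs M)) W = expandS (evS ((chs M).map List.length)) W := by
    unfold expandS
    refine List.flatMap_congr fun b hb => ?_
    congr 2
    unfold evC
    refine min_eq_left ?_
    obtain ⟨a, t, ha⟩ := List.exists_cons_of_ne_nil (hne b hb)
    have h2 := hW.1 a
    rw [count_expandS] at h2
    have h3 : evS ((chs M).map List.length) b.2 * b.1.count a ≤
        (W.map fun b => evS ((chs M).map List.length) b.2 * b.1.count a).sum :=
      List.single_le_sum (fun _ _ => Nat.zero_le _) _ (List.mem_map.2 ⟨b, hb, rfl⟩)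
    have h4 : 1 ≤ b.1.count a := by
      rw [Nat.one_le_iff_ne_zero, Ne, List.count_eq_zero, not_not, ha]
      exact List.mem_cons_self
    have h5 : ((chs M).getD a []).length ≤ (chs M).flatten.length := by
      rw [List.length_flatten]
      by_cases hc : a < (chs M).length
      · rw [List.getD_eq_getElem _ _ hc]
        exact List.single_le_sum (fun _ _ => Nat.zero_le _) _
          (List.mem_map.2 ⟨_, List.getElem_mem hc, rfl⟩)
      · rw [List.getD_eq_default _ _ (by omega)]
        exact Nat.zero_le _
    have h6 : evS ((chs M).map List.length) b.2 ≤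
        evS ((chs M).map List.length) b.2 * b.1.count a := Nat.le_mul_of_pos_right _ h4
    omega
  rw [key]
  exact hW

theorem of_chk (hORD : S_ORD) (hCH : S_CH) (hEQ2 : S_EQ2) (M : List (List Bool)) (B : ℕ)
    (hM : IsDirTree M) (W : Cert) (h : chk M B W = true) : DirBandwidth (M, B) := by
  rw [chk_iff] at h
  obtain ⟨l, h1, h2, h3⟩ := hEQ2 _ _ _ _ _ (hCH M hM) h
  refine (hORD M B).2 ⟨l, h1, h2, fun u v hu hv huv => ?_⟩
  have := h3 u v hu hv huv
  exact ⟨this.1, this.2.trans (Nat.add_le_add_left (min_le_left _ _) _)⟩

/-- The decision procedure, given a pad. -/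
def dec (M : List (List Bool)) (B : ℕ) (w : List Unit) : Bool :=
  (List.range w.length).any fun c =>
    match unbits Cert c.bits.dropLast with
    | none => false
    | some W => chk M B W

theorem bits_valB_concat (l : List Bool) : (valB (l ++ [true])).bits = l ++ [true] := by
  have h1 : ∀ (r acc : List Bool), acc ≠ [] →
      r.foldl (fun acc b => if b = false ∧ acc = [] then [] else b :: acc) acc =
        r.reverse ++ acc := by
    intro r
    induction r with
    | nil => intro acc _; rfl
    | cons b r ih =>
      intro acc hacc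
      rw [List.foldl_cons, if_neg (fun h => hacc h.2), ih _ (by simp)]
      simp
  rw [← normB_eq]
  unfold normB
  rw [List.reverse_append, List.foldl_append]
  change List.foldl _ [true] l.reverse = _
  rw [h1 _ _ (by simp), List.reverse_reverse]

/-- A small enough certificate is found if the pad is long enough. -/
theorem dec_of_chk (M : List (List Bool)) (B : ℕ) (w : List Unit) (W : Cert)
    (hW : chk M B W = true) (hw : 2 ^ (sz W + 1) ≤ w.length) : dec M B w = true := by
  unfold dec
  rw [List.any_eq_true]
  refine ⟨valB (bits W ++ [true]), ?_, ?_⟩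
  · rw [List.mem_range]
    refine (valB_lt _).trans_le ?_
    rw [List.length_append, bits_length]
    exact hw
  · rw [bits_valB_concat, List.dropLast_concat, unbits_bits]
    exact hW

theorem chk_of_dec (M : List (List Bool)) (B : ℕ) (w : List Unit) (h : dec M B w = true) :
    ∃ W : Cert, chk M B W = true := by
  unfold dec at h
  rw [List.any_eq_true] at h
  obtain ⟨c, _, hc⟩ := h
  split at hc
  · exact absurd hc (by simp)
  · exact ⟨_, hc⟩

end Pool.Agent.H683.BW
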