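import Pool.Agent.H683.BW.Stm

/-!
# Inserting cycles into an accepted word
-/

set_option autoImplicit false

namespace Pool.Agent.H683.BW

section

variable {Q α σ : Type} {step : Q → α → Option Q}

theorem run_append (q : Q) (u w : List α) :
    run step q (u ++ w) = (run step q u).bind fun q' => run step q' w := by
  induction u generalizing q with
  | nil => rfl
  | cons a u ih =>
    simp only [List.cons_append, run]
    cases h : step q a with
    | none => rfl
    | some q' => simpa using ih q'

theorem run_append_some {q q' : Q} {u w : List α} (h : run step q u = some q') :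
    run step q (u ++ w) = run step q' w := by
  rw [run_append, h]
  rfl

theorem run_pow {q : Q} {x : List α} (h : run step q x = some q) (e : ℕ) :
    run step q (List.replicate e x).flatten = some q := by
  induction e with
  | zero => rfl
  | succ e ih =>
    rw [List.replicate_succ, List.flatten_cons, run_append_some h]
    exact ih

/-- The word described by a list of blocks. -/
def expandS (ev : σ → ℕ) (W : List (List α × σ)) : List α :=
  W.flatMap fun b => (List.replicate (ev b.2) b.1).flatten

theorem expandS_append (ev : σ → ℕ) (W W' : List (List α × σ)) :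
    expandS ev (W ++ W') = expandS ev W ++ expandS ev W' := List.flatMap_append

theorem expandS_singleton (ev : σ → ℕ) (b : List α × σ) :
    expandS ev [b] = (List.replicate (ev b.2) b.1).flatten := by
  simp [expandS]

theorem expandS_units (ev : σ → ℕ) (one : σ) (h1 : ev one = 1) (u : List α) :
    expandS ev (u.map fun a => ([a], one)) = u := by
  induction u with
  | nil => rfl
  | cons a u ih =>
    rw [List.map_cons, ← List.singleton_append, expandS_append, ih, expandS_singleton, h1]
    rfl

theorem assemble (ev : σ → ℕ) (one : σ) (h1 : ev one = 1) (q0 f : Q) (z0 : List α)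
    (hz : run step q0 z0 = some f) : ∀ C : List (Q × List α × σ),
    (∀ p ∈ C, run step p.1 p.2.1 = some p.1 ∧ ∃ u w, z0 = u ++ w ∧ run step q0 u = some p.1) →
    ∃ W : List (List α × σ), run step q0 (expandS ev W) = some f ∧
      W.Perm ((z0.map fun a => ([a], one)) ++ C.map fun p => p.2) ∧
      ∀ q, (∃ u w, z0 = u ++ w ∧ run step q0 u = some q) →
        ∃ W1 W2, W = W1 ++ W2 ∧ run step q0 (expandS ev W1) = some q := by
  intro C
  induction C with
  | nil =>
    intro _
    refine ⟨z0.map fun a => ([a], one), ?_, by simp, ?_⟩
    · rw [expandS_units ev one h1]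
      exact hz
    · rintro q ⟨u, w, rfl, hu⟩
      refine ⟨u.map fun a => ([a], one), w.map fun a => ([a], one), by simp, ?_⟩
      rw [expandS_units ev one h1]
      exact hu
  | cons p C ih =>
    intro hC
    obtain ⟨W, hW, hperm, hinv⟩ := ih fun p hp => hC p (List.mem_cons_of_mem _ hp)
    obtain ⟨hcyc, hvis⟩ := hC p List.mem_cons_self
    obtain ⟨W1, W2, rfl, hW1⟩ := hinv p.1 hvis
    have hblk : run step p.1 (expandS ev [p.2]) = some p.1 := by
      rw [expandS_singleton]
      exact run_pow hcyc _
    have hW1' : run step q0 (expandS ev (W1 ++ [p.2])) = some p.1 := by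
      rw [expandS_append, run_append_some hW1, hblk]
    refine ⟨W1 ++ [p.2] ++ W2, ?_, ?_, ?_⟩
    · rw [expandS_append, run_append_some hW1', ← run_append_some hW1, ← expandS_append]
      exact hW
    · rw [List.append_assoc, List.singleton_append]
      refine List.perm_middle.trans ?_
      refine (List.Perm.cons _ hperm).trans ?_
      rw [List.map_cons]
      exact List.perm_middle.symm
    · intro q hq
      obtain ⟨A, B, hAB, hA⟩ := hinv q hq
      rcases List.append_eq_append_iff.1 hAB with ⟨D, h2, h3⟩ | ⟨D, h2, h3⟩
      · subst h2
        subst h3
        refine ⟨W1 ++ [p.2] ++ D, B, by simp, ?_⟩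
        rw [expandS_append, run_append_some hW1', ← run_append_some hW1, ← expandS_append]
        exact hA
      · subst h2
        subst h3
        exact ⟨A, D ++ [p.2] ++ W2, by simp, hA⟩

end

end Pool.Agent.H683.BW
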