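import Pool.Agent.H683.BW.Comp

/-!
# The size of the certificates is at most `2 ^ (31 (k + 1) ^ 3)`
-/

set_option autoImplicit false

namespace Pool.Agent.H683.BW

theorem two_mul_le_two_pow (s : ℕ) (hs : 1 ≤ s) : 2 * s ≤ 2 ^ s := by
  obtain ⟨t, rfl⟩ : ∃ t, s = t + 1 := ⟨s - 1, by omega⟩
  have h : t < 2 ^ t := Nat.lt_two_pow_self
  rw [pow_succ]
  omega

theorem FF_le (k : ℕ) : FF k ≤ 2 ^ (31 * (k + 1) ^ 3) := by
  set s := k + 1 with hs
  set X := 2 ^ (s ^ 3) with hX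
  have hs1 : 1 ≤ s := by omega
  have hsk : s * k + 1 ≤ s ^ 2 := by rw [hs]; nlinarith
  have hs2 : s ≤ s ^ 2 := by nlinarith
  have hs23 : s ^ 2 ≤ s ^ 3 := Nat.pow_le_pow_right hs1 (by norm_num)
  have hks : s ^ 2 * k ≤ s ^ 3 := by
    have : k ≤ s := by omega
    calc s ^ 2 * k ≤ s ^ 2 * s := Nat.mul_le_mul_left _ this
      _ = s ^ 3 := by ring
  have hX2 : 2 ≤ X := by
    calc 2 = 2 ^ 1 := by norm_num
      _ ≤ X := Nat.pow_le_pow_right (by norm_num) (by omega)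
  have hsX : s ≤ 2 ^ s := by have := two_mul_le_two_pow s hs1; omega
  have p2s : 2 ^ s ≤ X := Nat.pow_le_pow_right (by norm_num) (by omega)
  have p2s2 : 2 ^ s ^ 2 ≤ X := Nat.pow_le_pow_right (by norm_num) hs23
  have hN : NN k + 1 ≤ 2 ^ s ^ 2 := by
    have h1 : NN k ≤ 2 ^ (s * k) := by
      unfold NN
      rw [pow_mul]
      refine Nat.pow_le_pow_left ?_ k
      have := two_mul_le_two_pow s hs1
      omega
    have h2 : 1 ≤ 2 ^ (s * k) := Nat.one_le_two_pow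
    calc NN k + 1 ≤ 2 ^ (s * k) + 2 ^ (s * k) := Nat.add_le_add h1 h2
      _ = 2 ^ (s * k + 1) := by rw [pow_succ]; ring
      _ ≤ 2 ^ s ^ 2 := Nat.pow_le_pow_right (by norm_num) hsk
  have hNX : NN k + 1 ≤ X := hN.trans p2s2
  have hNk : (NN k + 1) ^ k ≤ X := by
    calc (NN k + 1) ^ k ≤ (2 ^ s ^ 2) ^ k := Nat.pow_le_pow_left hN k
      _ = 2 ^ (s ^ 2 * k) := by rw [← pow_mul]
      _ ≤ X := Nat.pow_le_pow_right (by norm_num) hks
  have hN2 : (NN k + 1) ^ 2 ≤ X ^ 2 := Nat.pow_le_pow_left hNX 2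
  have hkX : k + 1 ≤ X := hsX.trans p2s
  have hfac : k.factorial ≤ X := by
    calc k.factorial ≤ k ^ k := Nat.factorial_le_pow k
      _ ≤ (2 ^ s) ^ k := Nat.pow_le_pow_left (by omega) k
      _ = 2 ^ (s * k) := by rw [← pow_mul]
      _ ≤ X := Nat.pow_le_pow_right (by norm_num) (by omega)
  have hmid : (k * NN k ^ 2 + 1) ^ k ≤ X ^ 3 := by
    have h1 : k * NN k ^ 2 + 1 ≤ 2 ^ (3 * s ^ 2) := by
      calc k * NN k ^ 2 + 1 ≤ s * (NN k + 1) ^ 2 := by rw [hs]; nlinarith [Nat.zero_le (NN k)]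
        _ ≤ 2 ^ s ^ 2 * (2 ^ s ^ 2) ^ 2 := Nat.mul_le_mul (hsX.trans
            (Nat.pow_le_pow_right (by norm_num) hs2)) (Nat.pow_le_pow_left hN 2)
        _ = 2 ^ (3 * s ^ 2) := by rw [← pow_mul, ← pow_add]; ring_nf
    calc (k * NN k ^ 2 + 1) ^ k ≤ (2 ^ (3 * s ^ 2)) ^ k := Nat.pow_le_pow_left h1 k
      _ = 2 ^ (3 * (s ^ 2 * k)) := by rw [← pow_mul]; ring_nf
      _ ≤ 2 ^ (3 * s ^ 3) := Nat.pow_le_pow_right (by norm_num) (Nat.mul_le_mul_left _ hks)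
      _ = X ^ 3 := by rw [hX, ← pow_mul]; ring_nf
  have hlast : k * NN k + 1 ≤ X ^ 2 := by
    calc k * NN k + 1 ≤ (k + 1) * (NN k + 1) := by nlinarith [Nat.zero_le (NN k)]
      _ ≤ X * X := Nat.mul_le_mul hkX hNX
      _ = X ^ 2 := by ring
  have hRR : RR k (NN k) ≤ X ^ 6 := by
    unfold RR
    calc k.factorial * (k * NN k ^ 2 + 1) ^ k * (k * NN k + 1) ≤ X * X ^ 3 * X ^ 2 :=
          Nat.mul_le_mul (Nat.mul_le_mul hfac hmid) hlast
      _ = X ^ 6 := by ring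
  have hLL : LL k (NN k) ≤ X ^ 8 := by
    unfold LL
    calc (k * NN k + 1) * RR k (NN k) ≤ X ^ 2 * X ^ 6 := Nat.mul_le_mul hlast hRR
      _ = X ^ 8 := by ring
  have hpow : ∀ a b : ℕ, a ≤ b → X ^ a ≤ X ^ b := fun a b h => Nat.pow_le_pow_right (by omega) h
  have hstep : ∀ a b : ℕ, b = a + 1 → 2 * X ^ a ≤ X ^ b := fun a b h => by
    rw [h, pow_succ, mul_comm]; exact Nat.mul_le_mul_left _ hX2
  have hBM : BM k ≤ X ^ 11 := by
    unfold BM
    have h1 : (NN k + 1) ^ k * LL k (NN k) * NN k ≤ X ^ 10 := by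
      calc (NN k + 1) ^ k * LL k (NN k) * NN k ≤ X * X ^ 8 * X :=
            Nat.mul_le_mul (Nat.mul_le_mul hNk hLL) (by omega)
        _ = X ^ 10 := by ring
    have h2 := hpow 2 10 (by norm_num)
    have h3 := hstep 10 11 rfl
    omega
  have hC0 : C0 k ≤ X ^ 20 := by
    unfold C0
    have h1 : k * (RR k (NN k) * BM k) ≤ X ^ 18 := by
      calc k * (RR k (NN k) * BM k) ≤ X * (X ^ 6 * X ^ 11) :=
            Nat.mul_le_mul (by omega) (Nat.mul_le_mul hRR hBM)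
        _ = X ^ 18 := by ring
    have h2 := hpow 6 18 (by norm_num)
    have h3 := hpow 8 18 (by norm_num)
    have h4 := hpow 1 18 (by norm_num)
    rw [pow_one] at h4
    have h5 := hstep 18 19 rfl
    have h6 := hstep 19 20 rfl
    omega
  have hFB : FB k ≤ X ^ 26 := by
    unfold FB
    have a1 := hstep 21 22 rfl
    have a2 := hstep 22 23 rfl
    have a3 := hstep 23 24 rfl
    have a4 := hstep 24 25 rfl
    have a5 := hstep 25 26 rfl
    have b0 : 1 ≤ X ^ 20 := Nat.one_le_pow _ _ (by omega)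
    have b1 : 4 * C0 k + 2 ≤ 6 * X ^ 20 := by omega
    have b2 : (NN k + 1) * (4 * C0 k + 2) ≤ 6 * X ^ 21 := by
      calc (NN k + 1) * (4 * C0 k + 2) ≤ X * (6 * X ^ 20) := Nat.mul_le_mul hNX b1
        _ = 6 * X ^ 21 := by ring
    have b3 : (k + 1) * (4 * C0 k + 2) ≤ 6 * X ^ 21 := by
      calc (k + 1) * (4 * C0 k + 2) ≤ X * (6 * X ^ 20) := Nat.mul_le_mul hkX b1
        _ = 6 * X ^ 21 := by ring
    have b4 := hstep 20 21 rfl
    omega
  have hfin : FF k ≤ X ^ 31 := by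
    unfold FF
    have c1 : (NN k + 1) ^ 2 + (NN k + 1) ^ k ≤ 2 * X ^ 2 := by
      have := hpow 1 2 (by norm_num)
      rw [pow_one] at this
      omega
    have c2 : 1 ≤ X ^ 26 := Nat.one_le_pow _ _ (by omega)
    have c3 : ((NN k + 1) ^ 2 + (NN k + 1) ^ k) * (FB k + 1) ≤ 4 * X ^ 28 := by
      calc ((NN k + 1) ^ 2 + (NN k + 1) ^ k) * (FB k + 1) ≤ 2 * X ^ 2 * (2 * X ^ 26) :=
            Nat.mul_le_mul c1 (by omega)
        _ = 4 * X ^ 28 := by ring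
    have c4 := hstep 28 29 rfl
    have c5 := hstep 29 30 rfl
    have c6 := hstep 30 31 rfl
    have c7 : 1 ≤ X ^ 28 := Nat.one_le_pow _ _ (by omega)
    omega
  refine hfin.trans (le_of_eq ?_)
  rw [hX, ← pow_mul]
  congr 1
  ring

end Pool.Agent.H683.BW
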