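import Pool.Agent.H683.BW.Asm
import Pool.Graph.R_seed8.NPC.Num

/-!
# Compressed words
-/

set_option autoImplicit false

namespace Pool.Agent.H683.BW

open Pool.Agent.NPC Pool.Agent.H633R2

/-- The specification of an exponent: `(p, q, d)` stands for `(p · v' - q · v') / d` where `v'` is
the list of the lengths of the chains, followed by `1`. -/
abbrev Spec : Type := List ℕ × List ℕ × ℕ

/-- Certificates: lists of blocks, i.e. words with exponents. -/
abbrev Cert : Type := List (List ℕ × Spec)

/-- The inner product. -/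
def dot (p v : List ℕ) : ℕ :=
  ((List.range v.length).map fun i => p.getD i 0 * v.getD i 0).sum

/-- The value of an exponent. -/
def evS (v : List ℕ) (s : Spec) : ℕ := (dot s.1 (v ++ [1]) - dot s.2.1 (v ++ [1])) / s.2.2

theorem sum_range_fin (k : ℕ) (f : ℕ → ℕ) :
    ((List.range k).map f).sum = ∑ c : Fin k, f c := by
  rw [← Finset.sum_range]
  induction k with
  | zero => simp
  | succ k ih => rw [List.range_succ, List.map_append, List.sum_append, ih,
      Finset.sum_range_succ]; simp

theorem dot_ofFn {k : ℕ} (a v : Fin k → ℕ) (a0 : ℕ) :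
    dot (List.ofFn a ++ [a0]) (List.ofFn v ++ [1]) = ∑ c, a c * v c + a0 := by
  unfold dot
  rw [List.length_append, List.length_ofFn, List.length_singleton, List.range_succ,
    List.map_append, List.sum_append]
  congr 1
  · rw [sum_range_fin]
    refine Finset.sum_congr rfl fun c _ => ?_
    rw [List.getD_append _ _ _ _ (by simp), List.getD_append _ _ _ _ (by simp)]
    simp
  · simp

theorem dot_nil (v : List ℕ) : dot [] v = 0 := by
  unfold dot
  simp

/-- The bound for the number of states. -/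
def NN (k : ℕ) : ℕ := (2 * k + 2) ^ k

/-- Bound for the base vector. -/
def BM (k : ℕ) : ℕ := (NN k + 1) ^ 2 + (NN k + 1) ^ k * LL k (NN k) * NN k

/-- Bound for all numbers in the certificate. -/
def C0 (k : ℕ) : ℕ := k * (RR k (NN k) * BM k) + RR k (NN k) + LL k (NN k) + k + 1

/-- Bound for the sizes of the blocks. -/
def FB (k : ℕ) : ℕ := (NN k + 1) * (4 * C0 k + 2) + 2 * ((k + 1) * (4 * C0 k + 2)) + 4 * C0 k + 10

/-- Bound for the size of the certificate. -/
def FF (k : ℕ) : ℕ := ((NN k + 1) ^ 2 + (NN k + 1) ^ k) * (FB k + 1) + 1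

/-! ### The states of the monitor -/

/-- The set of all possible states. -/
def states (k : ℕ) : Finset (List ℕ) :=
  (Finset.univ : Finset (Fin k → Fin (2 * k + 2))).image fun g => List.ofFn fun c => (g c : ℕ)

theorem states_card (k : ℕ) : (states k).card ≤ NN k := by
  refine Finset.card_image_le.trans ?_
  simp [NN]

theorem mem_states {k : ℕ} {l : List ℕ} (h : l.length = k) (h2 : ∀ x ∈ l, x < 2 * k + 2) :
    l ∈ states k := by
  subst h
  refine Finset.mem_image.2 ⟨fun c => ⟨l[c], h2 _ (List.getElem_mem _)⟩, Finset.mem_univ _, ?_⟩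
  simp

theorem init_mem_states (k : ℕ) : List.replicate k 0 ∈ states k :=
  mem_states (by simp) fun x hx => by
    rw [List.mem_replicate] at hx
    omega

theorem mstep_mem_states {k B : ℕ} {E : ℕ → ℕ → Bool} (hB : B ≤ 2 * k) {q q' : List ℕ} {a : ℕ}
    (h : mstep k B E q a = some q') : q' ∈ states k := by
  unfold mstep at h
  split_ifs at h with hc
  rw [Option.some_inj] at h
  subst h
  refine mem_states (by simp) fun x hx => ?_
  rw [List.mem_map] at hx
  obtain ⟨d, _, rfl⟩ := hx
  split_ifs
  · omega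
  · omega
  · have := Nat.min_le_right (q.getD d 0 + 1) (B + 1)
    omega

theorem mstep_lt {k B : ℕ} {E : ℕ → ℕ → Bool} {q q' : List ℕ} {a : ℕ}
    (h : mstep k B E q a = some q') : a < k := by
  unfold mstep at h
  split_ifs at h with hc
  exact hc.1

theorem run_lt {k B : ℕ} {E : ℕ → ℕ → Bool} : ∀ {w : List ℕ} {q q' : List ℕ},
    run (mstep k B E) q w = some q' → ∀ a ∈ w, a < k
  | [], _, _, _, a, ha => by simp at ha
  | b :: w, q, q', h, a, ha => by
    simp only [run] at h
    cases h1 : mstep k B E q b with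
    | none => rw [h1] at h; simp at h
    | some q1 =>
      rw [h1] at h
      rcases List.mem_cons.1 ha with rfl | ha
      · exact mstep_lt h1
      · exact run_lt (by simpa using h) a ha

/-! ### Counting vectors -/

/-- The numbers of occurrences of the letters. -/
def cv (k : ℕ) (x : List ℕ) : Fin k → ℕ := fun c => x.count (c : ℕ)

theorem cv_apply (k : ℕ) (x : List ℕ) (c : Fin k) : cv k x c = x.count (c : ℕ) := rfl

/-- The base vector. -/
def bvec (k : ℕ) (z0 : List ℕ) (D : Finset (Fin k → ℕ)) (m' : (Fin k → ℕ) → ℕ) (L : ℕ) :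
    Fin k → ℕ := fun c => z0.count (c : ℕ) + ∑ g ∈ D.filter (fun g => m' g ≤ L), m' g * g c

/-- A constant exponent. -/
def constSpec (k e : ℕ) : Spec := (List.replicate k 0 ++ [e], [], 1)

theorem ev_const {k : ℕ} (v : Fin k → ℕ) (e : ℕ) :
    evS (List.ofFn v) (constSpec k e) = e := by
  unfold evS constSpec
  simp only
  rw [dot_nil]
  have h : List.replicate k 0 = List.ofFn (fun _ : Fin k => 0) := by simp
  rw [h, dot_ofFn]
  simp

/-- An exponent given by a linear form: `(∑ a c * v c + β) / d`. -/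
def linSpec (k : ℕ) (a : Fin k → ℤ) (β d : ℤ) : Spec :=
  (List.ofFn (fun c => (a c).toNat) ++ [β.toNat],
    List.ofFn (fun c => (-a c).toNat) ++ [(-β).toNat], d.toNat)

theorem ev_lin {k : ℕ} (v : Fin k → ℕ) (a : Fin k → ℤ) (β d : ℤ) (e : ℕ) (hd : 0 < d)
    (h : ∑ c, a c * (v c : ℤ) + β = e * d) : evS (List.ofFn v) (linSpec k a β d) = e := by
  unfold evS linSpec
  simp only
  rw [dot_ofFn, dot_ofFn]
  have key : (((∑ c, (a c).toNat * v c + β.toNat : ℕ) : ℤ) -
      ((∑ c, (-a c).toNat * v c + (-β).toNat : ℕ) : ℤ)) = e * d := by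
    rw [← h]
    push_cast
    have h1 : ∀ x : ℤ, ((x.toNat : ℕ) : ℤ) - ((-x).toNat : ℕ) = x := fun x =>
      Int.toNat_sub_toNat_neg x
    have h2 : (∑ c, ((a c).toNat : ℤ) * (v c : ℤ)) - (∑ c, ((-a c).toNat : ℤ) * (v c : ℤ)) =
        ∑ c, a c * (v c : ℤ) := by
      rw [← Finset.sum_sub_distrib]
      refine Finset.sum_congr rfl fun c _ => ?_
      rw [← sub_mul, h1]
    have h3 := h1 β
    linarith
  obtain ⟨D, rfl⟩ : ∃ D : ℕ, d = D := ⟨d.toNat, by omega⟩
  have hD : 0 < D := by omega
  rw [Int.toNat_natCast]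
  have key2 : (∑ c, (a c).toNat * v c + β.toNat) - (∑ c, (-a c).toNat * v c + (-β).toNat) =
      e * D := by
    have : ((e * D : ℕ) : ℤ) = e * (D : ℤ) := by push_cast; rfl
    omega
  rw [key2]
  exact Nat.mul_div_cancel _ hD

end Pool.Agent.H683.BW
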