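import Pool.Agent.H683.BW.Comp

/-!
# Existence of small certificates
-/

set_option autoImplicit false

namespace Pool.Agent.H683.BW

open Pool.Agent.NPC Pool.Agent.H633R2

theorem count_flatten_replicate {α : Type} [DecidableEq α] (e : ℕ) (x : List α) (c : α) :
    (List.replicate e x).flatten.count c = e * x.count c := by
  induction e with
  | zero => simp
  | succ e ih => rw [List.replicate_succ, List.flatten_cons, List.count_append, ih]; ring

theorem count_expandS {α σ : Type} [DecidableEq α] (ev : σ → ℕ) (W : List (List α × σ)) (c : α) :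
    (expandS ev W).count c = (W.map fun b => ev b.2 * b.1.count c).sum := by
  unfold expandS
  induction W with
  | nil => simp
  | cons b W ih =>
    rw [List.flatMap_cons, List.count_append, count_flatten_replicate, ih, List.map_cons,
      List.sum_cons]

theorem sum_units {σ : Type} (ev : σ → ℕ) (one : σ) (h1 : ev one = 1) (z : List ℕ) (c : ℕ) :
    ((z.map fun a => (([a], one) : List ℕ × σ)).map fun b => ev b.2 * b.1.count c).sum =
      z.count c := by
  rw [← count_expandS, expandS_units ev one h1]

/-- The coefficients and denominators for the large multiplicities. -/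
theorem exists_coeff (hG : S_GRAM) (k N : ℕ) (D : Finset (Fin k → ℕ))
    (hD : ∀ g ∈ D, ∀ c, g c ≤ N) (m' : (Fin k → ℕ) → ℕ) (L : ℕ)
    (hLI : LinearIndependent ℚ (fun (g : {g // g ∈ D ∧ L < m' g}) (c : Fin k) =>
      ((g.1 c : ℕ) : ℚ))) :
    ∃ (A : (Fin k → ℕ) → Fin k → ℤ) (d : ℤ), 0 < d ∧ d ≤ RR k N ∧
      (∀ g ∈ D, L < m' g → ∀ c, |A g c| ≤ RR k N) ∧
      ∀ g ∈ D, L < m' g → ∀ g' ∈ D, L < m' g' →
        ∑ c, A g c * (g' c : ℤ) = if g = g' then d else 0 := by
  classical
  have hfin : Finite {g // g ∈ D ∧ L < m' g} :=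
    Finite.Set.subset (D : Set (Fin k → ℕ)) (fun g hg => hg.1)
  have : Fintype {g // g ∈ D ∧ L < m' g} := Fintype.ofFinite _
  obtain ⟨A, d, hd, hdR, hA, hAG⟩ := hG k N {g // g ∈ D ∧ L < m' g}
    (fun g c => ((g.1 c : ℕ) : ℤ)) (fun g c => ⟨by positivity, by
      have := hD g.1 g.2.1 c
      exact_mod_cast this⟩) (by simpa using hLI)
  refine ⟨fun g c => if h : g ∈ D ∧ L < m' g then A ⟨g, h⟩ c else 0, d, hd, hdR, ?_, ?_⟩
  · intro g hg hL c
    simp only [dif_pos (show g ∈ D ∧ L < m' g from ⟨hg, hL⟩)]
    exact hA _ c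
  · intro g hg hL g' hg' hL'
    have := hAG ⟨g, hg, hL⟩ ⟨g', hg', hL'⟩
    simp only [Subtype.mk.injEq] at this
    rw [← this]
    refine Finset.sum_congr rfl fun c _ => ?_
    simp only [dif_pos (show g ∈ D ∧ L < m' g from ⟨hg, hL⟩)]

theorem sum_cv {Q : Type} (k : ℕ) (C : List (Q × List ℕ)) (c : Fin k) :
    ((C.map fun p => cv k p.2).sum) c = (C.map fun p => p.2.count (c : ℕ)).sum := by
  induction C with
  | nil => simp
  | cons p C ih =>
    rw [List.map_cons, List.sum_cons, Pi.add_apply, ih, List.map_cons, List.sum_cons, cv_apply]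

theorem abs_beta_le {k : ℕ} {a : Fin k → ℤ} {b : Fin k → ℕ} {R T : ℕ} (ha : ∀ c, |a c| ≤ R)
    (hb : ∀ c, b c ≤ T) : |∑ c, a c * (b c : ℤ)| ≤ k * (R * T) := by
  refine (Finset.abs_sum_le_sum_abs _ _).trans ?_
  have h : ∀ c ∈ (Finset.univ : Finset (Fin k)), |a c * (b c : ℤ)| ≤ R * T := by
    intro c _
    rw [abs_mul]
    have h1 := ha c
    have h2 : |((b c : ℕ) : ℤ)| ≤ T := by
      rw [abs_of_nonneg (by positivity)]
      exact_mod_cast hb c
    exact mul_le_mul h1 h2 (abs_nonneg _) (by positivity)
  refine (Finset.sum_le_sum h).trans ?_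
  simp

theorem sz_natList_le (l : List ℕ) (T : ℕ) (h : ∀ x ∈ l, x ≤ T) :
    sz l ≤ l.length * (4 * T + 2) + 1 := by
  refine sz_le_length_mul l (4 * T + 1) fun x hx => ?_
  have h1 := sz_nat_le x
  have h2 := Poly.size_le_self x
  have h3 := h x hx
  omega

theorem sz_spec_le (s : Spec) (k T : ℕ) (h1 : s.1.length ≤ k + 1) (h2 : s.2.1.length ≤ k + 1)
    (h3 : ∀ x ∈ s.1, x ≤ T) (h4 : ∀ x ∈ s.2.1, x ≤ T) (h5 : s.2.2 ≤ T) :
    sz s ≤ 2 * ((k + 1) * (4 * T + 2)) + 4 * T + 5 := by
  obtain ⟨p, q, d⟩ := s
  simp only at h1 h2 h3 h4 h5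
  rw [sz_pair, sz_pair]
  have a1 := sz_natList_le p T h3
  have a2 := sz_natList_le q T h4
  have a3 := sz_nat_le d
  have a4 := Poly.size_le_self d
  have a5 : p.length * (4 * T + 2) ≤ (k + 1) * (4 * T + 2) := Nat.mul_le_mul_right _ h1
  have a6 : q.length * (4 * T + 2) ≤ (k + 1) * (4 * T + 2) := Nat.mul_le_mul_right _ h2
  omega

/-- **Small certificates.** -/
theorem exists_cert (hP : S_PUMP) (hC : S_CAR) (hG : S_GRAM) (A : ℕ → ℕ → Bool)
    (ch : List (List ℕ)) (B : ℕ) (hB : B ≤ 2 * ch.length) (z : List ℕ) (hz : WordOk A ch B z) :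
    ∃ W : Cert, sz W ≤ FF ch.length ∧
      WordOk A ch B (expandS (evS (ch.map List.length)) W) ∧ ∀ b ∈ W, b.1 ≠ [] := by
  classical
  set k := ch.length with hk
  set E := EE A ch with hE
  obtain ⟨hcount, hrun⟩ := hz
  obtain ⟨f, hf⟩ := Option.isSome_iff_exists.1 hrun
  -- the lengths
  set v : Fin k → ℕ := fun c => (ch.getD (c : ℕ) []).length with hv
  have hlens : ch.map List.length = List.ofFn v := by
    refine List.ext_getElem (by simp [hk]) fun i h1 h2 => ?_
    simp only [List.length_map] at h1
    simp [hv, h1]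
  rw [hlens]
  -- pumping
  obtain ⟨z0, C, hz0, hz0len, hCyc, hcnt⟩ := hP (List ℕ) ℕ (mstep k B E) (states k)
    (List.replicate k 0) (init_mem_states k) (fun q _ a q' h => mstep_mem_states hB h) z f hf
  have hScard := states_card k
  have hz0len' : z0.length ≤ (NN k + 1) ^ 2 :=
    hz0len.trans (Nat.pow_le_pow_left (Nat.add_le_add_right hScard 1) 2)
  -- the vectors
  set l : List (Fin k → ℕ) := C.map fun p => cv k p.2 with hl
  set D : Finset (Fin k → ℕ) := l.toFinset with hDdef
  have hrep : ∀ g ∈ D, ∃ p ∈ C, cv k p.2 = g := by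
    intro g hg
    rw [hDdef, List.mem_toFinset, hl, List.mem_map] at hg
    exact hg
  have hDprop : ∀ g ∈ D, g ≠ 0 ∧ ∀ c, g c ≤ NN k := by
    intro g hg
    obtain ⟨p, hp, rfl⟩ := hrep g hg
    obtain ⟨h1, h2, h3, _⟩ := hCyc p hp
    refine ⟨?_, fun c => (List.count_le_length).trans (h3.trans hScard)⟩
    intro h0
    obtain ⟨a, t, ha⟩ := List.exists_cons_of_ne_nil h2
    have hak : a < k := run_lt h1 a (by rw [ha]; exact List.mem_cons_self)
    have h4 := congrFun h0 ⟨a, hak⟩
    rw [cv_apply] at h4
    simp only [Pi.zero_apply, List.count_eq_zero] at h4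
    exact h4 (by rw [ha]; exact List.mem_cons_self)
  set m : (Fin k → ℕ) → ℕ := fun g => l.count g with hm
  have hsum : ∑ g ∈ D, m g • g = l.sum := by
    have := Finset.sum_list_map_count l (fun g => g)
    simp only [List.map_id'] at this
    rw [this]
  obtain ⟨m', hm', hLI⟩ := hC k (NN k) D hDprop m
  obtain ⟨AA, d, hd, hdR, hAA, hAG⟩ := exists_coeff hG k (NN k) D (fun g hg => (hDprop g hg).2) m'
    (LL k (NN k)) hLI
  set L := LL k (NN k) with hL
  set b := bvec k z0 D m' L with hb
  -- the vectors in coordinates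
  have hvz : ∀ c : Fin k, v c = z0.count (c : ℕ) + ∑ g ∈ D, m' g * g c := by
    intro c
    have h1 : v c = z.count (c : ℕ) := (hcount c).symm
    rw [h1, hcnt]
    congr 1
    rw [← sum_cv k C c, ← hl, ← hsum, ← hm']
    simp [Finset.sum_apply]
  have hsplit : ∀ c : Fin k, v c = b c + ∑ g ∈ D.filter (fun g => ¬ m' g ≤ L), m' g * g c := by
    intro c
    rw [hvz, hb]
    unfold bvec
    rw [add_assoc, Finset.sum_filter_add_sum_filter_not]
  -- the specifications
  set spec : (Fin k → ℕ) → Spec := fun g => if L < m' g then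
    linSpec k (AA g) (-∑ c, AA g c * (b c : ℤ)) d else constSpec k (m' g) with hspec
  have hev : ∀ g ∈ D, evS (List.ofFn v) (spec g) = m' g := by
    intro g hg
    rw [hspec]
    simp only
    split_ifs with hL'
    · refine ev_lin v (AA g) _ d (m' g) hd ?_
      rw [← sub_eq_add_neg, ← Finset.sum_sub_distrib]
      have h1 : ∀ c : Fin k, AA g c * (v c : ℤ) - AA g c * (b c : ℤ) =
          ∑ g' ∈ D.filter (fun g => ¬ m' g ≤ L), (m' g' : ℤ) * (AA g c * (g' c : ℤ)) := by
        intro c
        rw [← mul_sub, hsplit c]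
        push_cast
        rw [add_sub_cancel_left, Finset.mul_sum]
        refine Finset.sum_congr rfl fun g' _ => by ring
      rw [Finset.sum_congr rfl fun c _ => h1 c, Finset.sum_comm]
      have h2 : ∀ g' ∈ D.filter (fun g => ¬ m' g ≤ L),
          ∑ c, (m' g' : ℤ) * (AA g c * (g' c : ℤ)) = if g = g' then (m' g : ℤ) * d else 0 := by
        intro g' hg'
        rw [Finset.mem_filter, not_le] at hg'
        rw [← Finset.mul_sum, hAG g hg hL' g' hg'.1 hg'.2]
        split_ifs with h3
        · rw [h3]
        · simp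
      rw [Finset.sum_congr rfl h2, Finset.sum_ite_eq, if_pos]
      rw [Finset.mem_filter, not_le]
      exact ⟨hg, hL'⟩
    · exact ev_const v (m' g)
  -- representatives of the cycles
  choose! rep hrepC hrepg using hrep
  set one : Spec := constSpec k 1 with hone
  have hone1 : evS (List.ofFn v) one = 1 := ev_const v 1
  obtain ⟨W, hW, hperm, _⟩ := assemble (step := mstep k B E) (evS (List.ofFn v)) one hone1
    (List.replicate k 0) f z0 hz0
    (D.toList.map fun g => ((rep g).1, (rep g).2, spec g)) (by
      intro p hp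
      rw [List.mem_map] at hp
      obtain ⟨g, hg, rfl⟩ := hp
      rw [Finset.mem_toList] at hg
      obtain ⟨h1, h2, h3, h4⟩ := hCyc _ (hrepC g hg)
      exact ⟨h1, h4⟩)
  rw [List.map_map] at hperm
  have hmemW : ∀ b ∈ W, (∃ a ∈ z0, b = ([a], one)) ∨ ∃ g ∈ D, b = ((rep g).2, spec g) := by
    intro b hb
    have := hperm.mem_iff.1 hb
    rw [List.mem_append, List.mem_map, List.mem_map] at this
    rcases this with ⟨a, ha, rfl⟩ | ⟨g, hg, rfl⟩
    · exact Or.inl ⟨a, ha, rfl⟩
    · exact Or.inr ⟨g, Finset.mem_toList.1 hg, rfl⟩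
  have hDcard : D.card ≤ (NN k + 1) ^ k := by
    have hsub : D ⊆ Fintype.piFinset fun _ : Fin k => Finset.range (NN k + 1) := by
      intro g hg
      rw [Fintype.mem_piFinset]
      intro c
      rw [Finset.mem_range]
      have := (hDprop g hg).2 c
      omega
    refine (Finset.card_le_card hsub).trans ?_
    rw [Fintype.card_piFinset]
    simp
  have hWlen : W.length ≤ (NN k + 1) ^ 2 + (NN k + 1) ^ k := by
    rw [hperm.length_eq, List.length_append, List.length_map, List.length_map,
      Finset.length_toList]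
    exact Nat.add_le_add hz0len' hDcard
  refine ⟨W, ?_, ⟨?_, ?_⟩, ?_⟩
  · have hblk : ∀ b ∈ W, sz b ≤ FB k := by
      have hC1 : 1 ≤ C0 k := by unfold C0; omega
      have hCk : k ≤ C0 k := by unfold C0; omega
      have hword : ∀ x : List ℕ, x.length ≤ NN k + 1 → (∀ a ∈ x, a < k) →
          sz x ≤ (NN k + 1) * (4 * C0 k + 2) + 1 := by
        intro x hx hxk
        refine (sz_natList_le x (C0 k) fun a ha => ((hxk a ha).le.trans hCk)).trans ?_
        exact Nat.add_le_add_right (Nat.mul_le_mul_right _ hx) 1
      have hconst : ∀ e, e ≤ C0 k → sz (constSpec k e) ≤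
          2 * ((k + 1) * (4 * C0 k + 2)) + 4 * C0 k + 5 := by
        intro e he
        refine sz_spec_le _ k (C0 k) (by simp [constSpec]) (by simp [constSpec]) ?_
          (by simp [constSpec]) hC1
        intro x hx
        simp only [constSpec, List.mem_append, List.mem_replicate, List.mem_singleton] at hx
        omega
      have hb_le : ∀ c, b c ≤ BM k := by
        intro c
        rw [hb]
        unfold bvec BM
        refine Nat.add_le_add (List.count_le_length.trans hz0len') ?_
        have h1 : ∀ g ∈ D.filter (fun g => m' g ≤ L), m' g * g c ≤ L * NN k := by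
          intro g hg
          rw [Finset.mem_filter] at hg
          exact Nat.mul_le_mul hg.2 ((hDprop g hg.1).2 c)
        refine (Finset.sum_le_sum h1).trans ?_
        rw [Finset.sum_const, smul_eq_mul, mul_assoc]
        exact Nat.mul_le_mul_right _ ((Finset.card_filter_le _ _).trans hDcard)
      intro b hb
      rcases hmemW b hb with ⟨a, ha, rfl⟩ | ⟨g, hg, rfl⟩
      · rw [sz_pair]
        have h1 := hword [a] (by simp) (by
          intro a' ha'
          rw [List.mem_singleton] at ha'
          subst ha'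
          exact run_lt hz0 a' ha)
        have h2 : sz one ≤ _ := hconst 1 hC1
        unfold FB
        omega
      · rw [sz_pair]
        obtain ⟨h1, h2, h3, h4⟩ := hCyc _ (hrepC g hg)
        have h5 := hword (rep g).2 (h3.trans (hScard.trans (Nat.le_succ _))) (run_lt h1)
        have h6 : sz (spec g) ≤ 2 * ((k + 1) * (4 * C0 k + 2)) + 4 * C0 k + 5 := by
          rw [hspec]
          simp only
          split_ifs with hL'
          · have hA := hAA g hg hL'
            have hβ := abs_beta_le hA hb_le
            have hR : RR k (NN k) ≤ C0 k := by unfold C0; omega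
            have hRB : k * (RR k (NN k) * BM k) ≤ C0 k := by unfold C0; omega
            refine sz_spec_le _ k (C0 k) (by simp [linSpec]) (by simp [linSpec]) ?_ ?_ ?_
            · intro x hx
              simp only [linSpec, List.mem_append, List.mem_ofFn, List.mem_singleton] at hx
              rcases hx with ⟨c, rfl⟩ | rfl
              · have := abs_le.1 (hA c)
                omega
              · have := abs_le.1 hβ
                have h8 : ((k * (RR k (NN k) * BM k) : ℕ) : ℤ) ≤ C0 k := by exact_mod_cast hRB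
                push_cast at h8
                omega
            · intro x hx
              simp only [linSpec, List.mem_append, List.mem_ofFn, List.mem_singleton] at hx
              rcases hx with ⟨c, rfl⟩ | rfl
              · have := abs_le.1 (hA c)
                omega
              · have := abs_le.1 hβ
                have h8 : ((k * (RR k (NN k) * BM k) : ℕ) : ℤ) ≤ C0 k := by exact_mod_cast hRB
                push_cast at h8
                omega
            · simp only [linSpec]
              omega
          · refine hconst _ ?_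
            have : L ≤ C0 k := by rw [hL]; unfold C0; omega
            omega
        unfold FB
        omega
    refine (sz_le_length_mul W (FB k) hblk).trans ?_
    unfold FF
    exact Nat.add_le_add_right (Nat.mul_le_mul_right _ hWlen) 1
  · intro c
    by_cases hc : c < k
    · rw [count_expandS, (hperm.map _).sum_eq, List.map_append, List.sum_append,
        sum_units _ _ hone1, List.map_map]
      have h1 : ((D.toList.map ((fun b : List ℕ × Spec => evS (List.ofFn v) b.2 * b.1.count c) ∘
          ((fun p : List ℕ × List ℕ × Spec => p.2) ∘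
            fun g => ((rep g).1, (rep g).2, spec g))))).sum =
          ∑ g ∈ D, m' g * g ⟨c, hc⟩ := by
        rw [Finset.sum_map_toList]
        refine Finset.sum_congr rfl fun g hg => ?_
        simp only [Function.comp]
        rw [hev g hg]
        congr 1
        have := congrFun (hrepg g hg) ⟨c, hc⟩
        rw [cv_apply] at this
        exact this
      rw [h1]
      exact (hvz ⟨c, hc⟩).symm
    · rw [List.count_eq_zero_of_not_mem, List.getD_eq_default _ _ (by omega), List.length_nil]
      intro hmem
      exact hc (run_lt hW c hmem)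
  · rw [hW]
    rfl
  · intro b hb
    rcases hmemW b hb with ⟨a, _, rfl⟩ | ⟨g, hg, rfl⟩
    · simp
    · exact (hCyc _ (hrepC g hg)).2.1

end Pool.Agent.H683.BW
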