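import Pool.Graph.R_seed8.H633R2.FptDefs

/-!
# Directed bandwidth of directed trees: definitions

A digraph is given by its adjacency matrix (a list of rows). The machine model, the encodings and
fixed-parameter tractability (`IsFpt`) are those of `FptDefs`.
-/

set_option autoImplicit false

namespace Pool.Agent.H683.BW

open Pool.Agent.NPC Pool.Agent.H633R2

/-- The digraph with matrix `M`, with vertex set `Fin M.length`, has an arc from `i` to `j`. -/
def Arc (M : List (List Bool)) (i j : Fin M.length) : Prop := entry M i j = true

/-- The digraph with matrix `M` is a directed tree: there are no loops and no two opposite arcs,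
and the underlying undirected graph is a tree. -/
def IsDirTree (M : List (List Bool)) : Prop :=
  (∀ i j, Arc M i j → ¬ Arc M j i) ∧ (graphOf M).IsTree

/-- Directed Bandwidth, instances `(G, B)`: is there a topological ordering of `G` (a bijection `f`
of the vertices with the positions `0, …, n - 1` with `f i < f j` for all arcs) with
`f j - f i ≤ B` for all arcs `(i, j)`? -/
def DirBandwidth (x : List (List Bool) × ℕ) : Prop :=
  ∃ f : Fin x.1.length ≃ Fin x.1.length, ∀ i j, Arc x.1 i j →
    (f i : ℕ) < f j ∧ (f j : ℕ) - f i ≤ x.2

/-- `S` is an antichain: no two of its vertices are joined by a directed path. -/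
def IsAnti (M : List (List Bool)) (S : Finset (Fin M.length)) : Prop :=
  ∀ i ∈ S, ∀ j ∈ S, i ≠ j → ¬ Relation.TransGen (Arc M) i j

/-- The width of the digraph: the largest size of an antichain. -/
noncomputable def width (M : List (List Bool)) : ℕ :=
  sSup {k | ∃ S : Finset (Fin M.length), IsAnti M S ∧ S.card = k}

end Pool.Agent.H683.BW
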