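import Pool.Agent.H683.BW.Stm

/-!
# Orderings as bijections and as lists
-/

set_option autoImplicit false

namespace Pool.Agent.H683.BW

open Pool.Agent.NPC Pool.Agent.H633R2

theorem ORD : S_ORD := by
  intro M B
  constructor
  · rintro ⟨f, hf⟩
    have key : ∀ (u : ℕ) (hu : u < M.length),
        (List.ofFn fun i => (f.symm i : ℕ)).idxOf u = f ⟨u, hu⟩ := by
      intro u hu
      have hnd : (List.ofFn fun i => (f.symm i : ℕ)).Nodup := by
        rw [List.nodup_ofFn]
        exact fun i j h => f.symm.injective (Fin.ext h)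
      have h1 : (f ⟨u, hu⟩ : ℕ) < (List.ofFn fun i => (f.symm i : ℕ)).length := by simp
      have h2 : (List.ofFn fun i => (f.symm i : ℕ))[(f ⟨u, hu⟩ : ℕ)] = u := by simp
      have h3 := hnd.idxOf_getElem (f ⟨u, hu⟩ : ℕ) h1
      rwa [h2] at h3
    refine ⟨List.ofFn fun i => (f.symm i : ℕ), ?_, ?_, ?_⟩
    · rw [List.nodup_ofFn]
      exact fun i j h => f.symm.injective (Fin.ext h)
    · intro v
      rw [List.mem_ofFn]
      constructor
      · rintro ⟨i, rfl⟩
        exact (f.symm i).2
      · intro hv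
        exact ⟨f ⟨v, hv⟩, by simp⟩
    · intro u v hu hv huv
      rw [key u hu, key v hv]
      obtain ⟨h1, h2⟩ := hf ⟨u, hu⟩ ⟨v, hv⟩ huv
      simp only at h2
      omega
  · rintro ⟨l, h1, h2, h3⟩
    have hlen : l.length = M.length := by
      rw [← List.toFinset_card_of_nodup h1, ← Finset.card_range M.length]
      congr 1
      ext v
      rw [List.mem_toFinset, Finset.mem_range]
      exact h2 v
    have hlt : ∀ i : Fin M.length, l.idxOf (i : ℕ) < M.length := by
      intro i
      exact (List.idxOf_lt_length_iff.2 ((h2 _).2 i.2)).trans_eq hlen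
    have hinj : Function.Injective fun i : Fin M.length => (⟨l.idxOf (i : ℕ), hlt i⟩ :
        Fin M.length) := by
      intro i j h
      simp only [Fin.mk.injEq] at h
      exact Fin.ext ((List.idxOf_inj ((h2 _).2 i.2)).1 h)
    refine ⟨Equiv.ofBijective _ (Finite.injective_iff_bijective.1 hinj), ?_⟩
    intro i j hij
    obtain ⟨h4, h5⟩ := h3 i j i.2 j.2 hij
    refine ⟨h4, ?_⟩
    change l.idxOf (j : ℕ) - l.idxOf (i : ℕ) ≤ B
    omega

end Pool.Agent.H683.BW
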