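import Pool.Agent.H683.BW.PolyAlg
import Pool.Agent.H683.BW.OrdEq
import Pool.Agent.H683.BW.Bound
import Pool.Agent.H105.BW_CH
import Pool.Agent.H84.BW.K
import Pool.Agent.H77.BW_LEV
import Pool.Agent.H505.BW_EQ1
import Pool.Agent.H670.BW_EQ2
import Pool.Agent.H695.BW_PUMP
import Pool.Agent.H25.BW_GRAM
import Pool.Agent.H241.BW_CAR

/-!
# Directed bandwidth of directed trees is fixed-parameter tractable in the width
-/

set_option autoImplicit false

namespace Pool.Agent.NPC.H683BW

open Turing Pool.Agent.H683.BW Pool.Agent.H633R2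

/-- A pad of exponential length. -/
def expPad (l : List Unit) : List Unit := List.replicate (2 ^ l.length) ()

theorem expPad_length (l : List Unit) : (expPad l).length = 2 ^ l.length := by simp [expPad]

theorem valB_two_pow (n : ℕ) : valB (List.replicate n false ++ [true]) = 2 ^ n := by
  induction n with
  | zero => rfl
  | succ n ih => rw [List.replicate_succ, List.cons_append, valB_cons, ih, pow_succ]; simp; ring

theorem fptTime_expPad : FptTime (fun l : List Unit => l.length) expPad := by
  obtain ⟨c, P, h⟩ := fpt_run expPad (fun l : List Unit => l.length) (fun n => n)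
    (UPoly.length Poly.id) (by
      have hv : Poly (fun x : {x : List Unit × List Unit // 2 ^ x.1.length ≤ x.2.length} =>
        x.1) := Poly.val _
      have h1 : Poly (fun x : {x : List Unit × List Unit // 2 ^ x.1.length ≤ x.2.length} =>
          2 ^ x.1.1.length) := by
        refine (Poly.valBits (l := fun x : {x : List Unit × List Unit //
          2 ^ x.1.length ≤ x.2.length} => x.1.1.map (fun _ => false) ++ [true]) ?_).congr
          fun x => ?_
        · exact Poly.append (Poly.map (l := fun x : {x : List Unit × List Unit //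
            2 ^ x.1.length ≤ x.2.length} => x.1.1) (F := fun _ _ => false) (Poly.fst hv)
            (Poly.const false)) (Poly.const [true])
        · rw [List.map_const', valB_two_pow]
      exact UPoly.of_le (n := fun x : {x : List Unit × List Unit //
        2 ^ x.1.length ≤ x.2.length} => x.1.2.length) h1 (UPoly.length (Poly.snd hv))
        fun x => x.2)
  obtain ⟨C, D, hCD⟩ := eval_le_pow P
  rw [fptTime_iff]
  refine ⟨c, fun n => C * 2 ^ ((2 * n + 4) * D), (Polynomial.X + 1) ^ D, ?_,
    fun a => (h a).mono ?_⟩
  · apply Primrec.to_comp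
    have hpow : Primrec₂ (fun a b : ℕ => a ^ b) := Primrec₂.unpaired'.1 Nat.Primrec.pow
    exact Primrec.nat_mul.comp (Primrec.const C) (hpow.comp (Primrec.const 2)
      (Primrec.nat_mul.comp (Primrec.nat_add.comp (Primrec.nat_mul.comp (Primrec.const 2)
        Primrec.id) (Primrec.const 4)) (Primrec.const D)))
  · set E := 2 ^ (2 * a.length + 4) with hE
    have hE1 : 1 ≤ E := Nat.one_le_two_pow
    have h1 : (bits a).length + E ≤ E * ((bits a).length + 1) := by
      nlinarith [Nat.mul_le_mul_left (bits a).length hE1]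
    refine (hCD _ (by omega)).trans ?_
    simp only [Polynomial.eval_pow, Polynomial.eval_add, Polynomial.eval_X, Polynomial.eval_one]
    calc C * ((bits a).length + E) ^ D ≤ C * (E * ((bits a).length + 1)) ^ D :=
          Nat.mul_le_mul_left _ (Nat.pow_le_pow_left h1 D)
      _ = C * 2 ^ ((2 * a.length + 4) * D) * ((bits a).length + 1) ^ D := by
        rw [mul_pow, pow_mul, hE]; ring

/-- Instances: directed trees with a number `B`. -/
abbrev Inst : Type := {x : List (List Bool) × ℕ // IsDirTree x.1}

/-- The exponent of the first pad. -/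
def qk (M : List (List Bool)) : ℕ := 31 * ((chs M).length + 1) ^ 3

/-- The pad. -/
def pad (M : List (List Bool)) : List Unit :=
  expPad (expPad (List.replicate (qk M) ()) ++ [()])

theorem pad_length (M : List (List Bool)) : (pad M).length = 2 ^ (2 ^ qk M + 1) := by
  unfold pad
  rw [expPad_length, List.length_append, expPad_length, List.length_replicate]
  rfl

theorem computable_q : Computable (fun w : ℕ => 31 * (4 * w + 1) ^ 3) := by
  apply Primrec.to_comp
  have hpow : Primrec₂ (fun a b : ℕ => a ^ b) := Primrec₂.unpaired'.1 Nat.Primrec.pow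
  exact Primrec.nat_mul.comp (Primrec.const 31) (hpow.comp (Primrec.nat_add.comp
    (Primrec.nat_mul.comp (Primrec.const 4) Primrec.id) (Primrec.const 1)) (Primrec.const 3))

theorem computable_q2 : Computable (fun w : ℕ => 2 ^ (31 * (4 * w + 1) ^ 3) + 1) := by
  apply Primrec.to_comp
  have hpow : Primrec₂ (fun a b : ℕ => a ^ b) := Primrec₂.unpaired'.1 Nat.Primrec.pow
  exact Primrec.nat_add.comp (hpow.comp (Primrec.const 2) (Primrec.nat_mul.comp
    (Primrec.const 31) (hpow.comp (Primrec.nat_add.comp (Primrec.nat_mul.comp (Primrec.const 4)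
      Primrec.id) (Primrec.const 1)) (Primrec.const 3)))) (Primrec.const 1)

theorem qk_le (x : Inst) : qk x.1.1 ≤ 31 * (4 * width x.1.1 + 1) ^ 3 := by
  unfold qk
  have h1 := Pool.Agent.H84.BW.K x.1.1 x.2
  have h2 : (chs x.1.1).length = (heads x.1.1).length := by unfold chs; rw [List.length_map]
  refine Nat.mul_le_mul_left _ (Nat.pow_le_pow_left ?_ 3)
  omega

theorem uPoly_qk : UPoly (fun x : Inst => qk x.1.1) := by
  have hM : Poly (fun x : Inst => x.1.1) := Poly.fst (Poly.val _)
  have h1 : UPoly (fun x : Inst => (chs x.1.1).length + 1) :=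
    UPoly.add (UPoly.length (poly_chs hM)) (UPoly.const 1)
  have h2 : UPoly (fun x : Inst => 31 * (((chs x.1.1).length + 1) * ((chs x.1.1).length + 1) *
      ((chs x.1.1).length + 1))) := UPoly.mul (UPoly.const 31) (UPoly.mul (UPoly.mul h1 h1) h1)
  have e : ∀ x : Inst, 31 * (((chs x.1.1).length + 1) * ((chs x.1.1).length + 1) *
      ((chs x.1.1).length + 1)) = qk x.1.1 := fun x => by unfold qk; ring
  have e2 : (fun x : Inst => qk x.1.1) = fun x : Inst => 31 * (((chs x.1.1).length + 1) *
      ((chs x.1.1).length + 1) * ((chs x.1.1).length + 1)) := funext fun x => (e x).symm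
  rw [e2]
  exact h2

/-- The parameter. -/
noncomputable def wd (x : Inst) : ℕ := width x.1.1

theorem fptTime_pad1 : FptTime wd (fun x : Inst => List.replicate (qk x.1.1) ()) :=
  FptTime.of_poly uPoly_qk

attribute [local irreducible] qk expPad

theorem fptTime_pad2 : FptTime wd
    (fun x : Inst => expPad (List.replicate (qk x.1.1) ())) :=
  FptTime.comp fptTime_expPad fptTime_pad1 computable_q fun x => by
    rw [List.length_replicate]
    exact qk_le x

theorem fptTime_pad3 : FptTime wd
    (fun x : Inst => expPad (List.replicate (qk x.1.1) ()) ++ [()]) :=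
  FptTime.poly_comp (g := fun l : List Unit => l ++ [()])
    (Poly.append Poly.id (Poly.const [()])) fptTime_pad2

theorem fptTime_pad : FptTime wd (fun x : Inst => pad x.1.1) := by
  unfold pad
  exact FptTime.comp (g := expPad)
    (f := fun x : Inst => expPad (List.replicate (qk x.1.1) ()) ++ [()])
    fptTime_expPad fptTime_pad3 computable_q2 fun x => by
    rw [List.length_append, expPad_length, List.length_replicate]
    exact Nat.add_le_add_right (Nat.pow_le_pow_right (by norm_num) (qk_le x)) 1

attribute [local irreducible] pad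

theorem fptTime_dec : FptTime wd (fun x : Inst => dec x.1.1 x.1.2 (pad x.1.1)) := by
  have hpair : FptTime wd (fun x : Inst => (x, pad x.1.1)) :=
    FptTime.pair (FptTime.of_poly Poly.id) fptTime_pad
  have hx : Poly (fun y : Inst × List Unit => y.1.1) :=
    (Poly.val _).comp (f := fun y : Inst × List Unit => y.1) (Poly.fst Poly.id)
  exact FptTime.poly_comp (g := fun y : Inst × List Unit => dec y.1.1.1 y.1.1.2 y.2)
    (poly_dec (Poly.fst hx) (Poly.snd hx) (Poly.snd Poly.id)) hpair

theorem dec_spec (M : List (List Bool)) (B : ℕ) (hM : IsDirTree M) :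
    dec M B (pad M) = true ↔ DirBandwidth (M, B) := by
  constructor
  · intro h
    obtain ⟨W, hW⟩ := chk_of_dec _ _ _ h
    exact of_chk ORD Pool.Agent.H105.BWCH.CH Pool.Agent.H670.BW.EQ2 M B hM W hW
  · intro h
    obtain ⟨W, hsz, hW⟩ := exists_chk ORD Pool.Agent.H105.BWCH.CH Pool.Agent.H77.BWLEV.LEV
      Pool.Agent.H505.BWEQ1.EQ1 Pool.Agent.H695.BW.PUMP
      (Pool.Agent.H241.BW_CAR.CAR Pool.Agent.H25.BWG.GRAM) Pool.Agent.H25.BWG.GRAM M B hM h
    have h1 : sz W ≤ 2 ^ qk M := hsz.trans (by
      have := FF_le (chs M).length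
      have e : qk M = 31 * ((chs M).length + 1) ^ 3 := by unfold qk; rfl
      rw [e]
      exact this)
    have h2 : 2 ^ (sz W + 1) ≤ (pad M).length := by
      rw [pad_length]
      exact Nat.pow_le_pow_right (by norm_num) (Nat.add_le_add_right h1 1)
    exact dec_of_chk M B (pad M) W hW h2

theorem main : IsFpt (fun x : Inst => width x.1.1) (fun x => DirBandwidth x.1) :=
  ⟨fun x => dec x.1.1 x.1.2 (pad x.1.1), fptTime_dec, fun x => dec_spec x.1.1 x.1.2 x.2⟩

end Pool.Agent.NPC.H683BW
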