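import Pool.Agent.H683.BW.Alg
import Pool.Graph.R_seed8.H628R2.FPTW
import Pool.Graph.R_seed8.H633R2.Fpt

/-!
# The verifier runs in polynomial time
-/

set_option autoImplicit false

namespace Pool.Agent.NPC.H683BW

open Turing Pool.Agent.H683.BW Pool.Agent.H633R2

variable {α : Type} [TEnc α]

theorem poly_entry {M : α → List (List Bool)} {i j : α → ℕ} (hM : Poly M)
    (hi : Poly i) (hj : Poly j) : Poly (fun a => entry (M a) (i a) (j a)) :=
  Poly.getD (Poly.getD hM hi (Poly.const [])) hj (Poly.const false)

theorem poly_outs {M : α → List (List Bool)} {u : α → ℕ} (hM : Poly M) (hu : Poly u) :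
    Poly (fun a => outs (M a) (u a)) := by
  unfold outs
  exact Poly.filter (l := fun a => List.range (M a).length)
    (p := fun a v => entry (M a) (u a) v) (UPoly.range (UPoly.length hM))
    (poly_entry (hM.comp (Poly.fst Poly.id)) (hu.comp (Poly.fst Poly.id)) (Poly.snd Poly.id))

theorem poly_ins {M : α → List (List Bool)} {v : α → ℕ} (hM : Poly M) (hv : Poly v) :
    Poly (fun a => ins (M a) (v a)) := by
  unfold ins
  exact Poly.filter (l := fun a => List.range (M a).length)
    (p := fun a u => entry (M a) u (v a)) (UPoly.range (UPoly.length hM))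
    (poly_entry (hM.comp (Poly.fst Poly.id)) (Poly.snd Poly.id) (hv.comp (Poly.fst Poly.id)))

theorem poly_link {M : α → List (List Bool)} {u v : α → ℕ} (hM : Poly M) (hu : Poly u)
    (hv : Poly v) : Poly (fun a => link (M a) (u a) (v a)) := by
  unfold link
  exact Poly.and (Poly.and (poly_entry hM hu hv)
    (Poly.decide_eq (Poly.length (poly_outs hM hu)) (Poly.const 1)))
    (Poly.decide_eq (Poly.length (poly_ins hM hv)) (Poly.const 1))

theorem poly_heads {M : α → List (List Bool)} (hM : Poly M) : Poly (fun a => heads (M a)) := by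
  unfold heads
  refine Poly.filter (l := fun a => List.range (M a).length)
    (p := fun a v => (List.range (M a).length).all fun u => !link (M a) u v)
    (UPoly.range (UPoly.length hM)) ?_
  have hM1 := hM.comp (f := fun a : α × ℕ => a.1) (Poly.fst Poly.id)
  refine Poly.all (l := fun a : α × ℕ => List.range (M a.1).length)
    (p := fun a u => !link (M a.1) u a.2) (UPoly.range (UPoly.length hM1)) ?_
  exact Poly.not (poly_link (hM1.comp (Poly.fst Poly.id)) (Poly.snd Poly.id)
    (Poly.snd (Poly.fst Poly.id)))

theorem poly_grow : Poly (fun a : List (List Bool) × List ℕ => grow a.1 a.2) := by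
  refine (Poly.listCases (l := fun a : List (List Bool) × List ℕ => a.2) (g := fun _ => [])
    (h := fun a u l => (((List.range a.1.length).filter (fun v => link a.1 u v)).head?.elim
      (u :: l) (fun w => w :: u :: l))) (Poly.snd Poly.id) (Poly.const []) ?_).congr ?_
  · refine (Poly.optCases (o := fun a : (List (List Bool) × List ℕ) × ℕ × List ℕ =>
      ((List.range a.1.1.length).filter (fun v => link a.1.1 a.2.1 v)).head?)
      (g := fun a => a.2.1 :: a.2.2) (h := fun a w => w :: a.2.1 :: a.2.2) ?_ ?_ ?_).congr ?_
    · refine Poly.head? (Poly.filter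
        (l := fun a : (List (List Bool) × List ℕ) × ℕ × List ℕ => List.range a.1.1.length)
        (p := fun a v => link a.1.1 a.2.1 v)
        (UPoly.range (UPoly.length (Poly.fst (Poly.fst Poly.id)))) ?_)
      exact poly_link (Poly.fst (Poly.fst (Poly.fst Poly.id)))
        (Poly.fst (Poly.snd (Poly.fst Poly.id))) (Poly.snd Poly.id)
    · exact Poly.cons (Poly.fst (Poly.snd Poly.id)) (Poly.snd (Poly.snd Poly.id))
    · exact Poly.cons (Poly.snd Poly.id) (Poly.cons (Poly.fst (Poly.snd (Poly.fst Poly.id)))
        (Poly.snd (Poly.snd (Poly.fst Poly.id))))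
    · intro a
      cases ((List.range a.1.1.length).filter (fun v => link a.1.1 a.2.1 v)).head? <;> rfl
  · rintro ⟨M, l⟩
    cases l with
    | nil => rfl
    | cons u l =>
      simp only [grow]
      cases (List.range M.length).filter (fun v => link M u v) <;> rfl

theorem grow_bound (M : List (List Bool)) (p : ℕ) (j : ℕ) :
    ((grow M)^[j] [p]).length ≤ j + 1 ∧ ∀ x ∈ (grow M)^[j] [p], x = p ∨ x < M.length := by
  induction j with
  | zero =>
    refine ⟨by simp, fun x hx => ?_⟩
    simp only [Function.iterate_zero, id, List.mem_singleton] at hx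
    exact Or.inl hx
  | succ j ih =>
    rw [Function.iterate_succ_apply']
    generalize (grow M)^[j] [p] = l at ih
    obtain ⟨h1, h2⟩ := ih
    cases l with
    | nil => simp [grow]
    | cons u l =>
      simp only [grow]
      split
      · exact ⟨h1.trans (Nat.le_succ _), h2⟩
      · next w t hw =>
        refine ⟨by simpa using h1, fun x hx => ?_⟩
        rcases List.mem_cons.1 hx with rfl | hx
        · have : x ∈ (List.range M.length).filter (fun v => link M u v) := by
            rw [hw]; exact List.mem_cons_self
          rw [List.mem_filter, List.mem_range] at this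
          exact Or.inr this.1
        · exact h2 x hx

theorem poly_revChain : Poly (fun x : List (List Bool) × ℕ => revChain x.1 x.2) := by
  refine Poly.iterLen (l := fun x : List (List Bool) × ℕ => x.1)
    (s := fun x => [x.2]) (F := fun x l => grow x.1 l) (Poly.fst Poly.id)
    (Poly.cons (Poly.snd Poly.id) (Poly.const [])) ?_
    ((Polynomial.X + 1) * (Polynomial.C 4 * Polynomial.X + 2) + 1) ?_
  · exact poly_grow.comp (Poly.pair (Poly.fst (Poly.fst Poly.id)) (Poly.snd Poly.id))
  · rintro ⟨M, p⟩ j hj
    simp only at hj ⊢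
    obtain ⟨h1, h2⟩ := grow_bound M p j
    have h4 : M.length + sz p ≤ sz (M, p) := by
      have h5 := length_lt_sz M
      have h6 : sz (M, p) = sz M + sz p + 1 := sz_pair M p
      omega
    have h3 := sz_le_length_mul ((grow M)^[j] [p]) (4 * sz (M, p) + 1) (by
      intro x hx
      rcases h2 x hx with rfl | h
      · omega
      · have a1 := sz_nat_le x
        have a2 := Poly.size_le_self x
        omega)
    simp only [Polynomial.eval_add, Polynomial.eval_mul, Polynomial.eval_C,
      Polynomial.eval_X, Polynomial.eval_one, Polynomial.eval_ofNat]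
    refine h3.trans (Nat.add_le_add_right (Nat.mul_le_mul ?_ ?_) 1) <;> omega

theorem poly_mapR (R : List (List Bool) × ℕ → List ℕ) (hR : Poly R)
    {M : α → List (List Bool)} (hM : Poly M) :
    Poly (fun a => (heads (M a)).map fun p => (R (M a, p)).reverse) := by
  refine Poly.map (l := fun a => heads (M a)) (F := fun a p => (R (M a, p)).reverse)
    (poly_heads hM) ?_
  have h1 : Poly (fun x : α × ℕ => M x.1) := hM.comp (Poly.fst Poly.id)
  have h2 : Poly (fun x : α × ℕ => (M x.1, x.2)) := Poly.pair h1 (Poly.snd Poly.id)
  exact Poly.reverse (hR.comp h2)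

theorem poly_chs {M : α → List (List Bool)} (hM : Poly M) : Poly (fun a => chs (M a)) :=
  poly_mapR (fun x => revChain x.1 x.2) poly_revChain hM

theorem uPoly_k {M : α → List (List Bool)} (hM : Poly M) : UPoly (fun a => (chs (M a)).length) :=
  UPoly.length (poly_chs hM)

/-! ### The monitor -/

theorem poly_lastD {l : α → List ℕ} (hl : Poly l) : Poly (fun a => (l a).getLastD 0) := by
  refine (Poly.getD (n := fun _ => 0) (d := fun _ => 0) (Poly.reverse hl) (Poly.const 0)
    (Poly.const 0)).congr fun a => ?_
  rcases List.eq_nil_or_concat (l a) with h | ⟨t, b, h⟩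
  · rw [h]; rfl
  · rw [h]; simp

theorem poly_headD {l : α → List ℕ} (hl : Poly l) : Poly (fun a => (l a).headD 0) := by
  refine (Poly.getD (n := fun _ => 0) (d := fun _ => 0) hl (Poly.const 0)
    (Poly.const 0)).congr fun a => ?_
  cases l a <;> rfl

theorem poly_EE {M : α → List (List Bool)} {ch : α → List (List ℕ)} {c d : α → ℕ} (hM : Poly M)
    (hch : Poly ch) (hc : Poly c) (hd : Poly d) :
    Poly (fun a => EE (entry (M a)) (ch a) (c a) (d a)) := by
  unfold EE
  have h1 : Poly (fun a => (ch a).getD (c a) []) := Poly.getD hch hc (Poly.const [])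
  have h2 : Poly (fun a => (ch a).getD (d a) []) := Poly.getD hch hd (Poly.const [])
  exact poly_entry hM (poly_lastD h1) (poly_headD h2)

/-- Boolean form of the condition of the monitor. -/
def condB (k B : ℕ) (E : ℕ → ℕ → Bool) (σ : List ℕ) (c : ℕ) : Bool :=
  decide (c < k) && ((decide (σ.getD c 0 = 0) && (List.range k).all fun d =>
      !(E d c) || (decide (1 ≤ σ.getD d 0) && decide (σ.getD d 0 ≤ B))) ||
    (decide (1 ≤ σ.getD c 0) && decide (σ.getD c 0 ≤ B) && (List.range k).all fun d =>
      !(E c d) || decide (σ.getD d 0 = 0)))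

theorem mstep_eq (k B : ℕ) (E : ℕ → ℕ → Bool) (σ : List ℕ) (c : ℕ) :
    mstep k B E σ c = if condB k B E σ c = true then
      some ((List.range k).map fun d =>
        if d = c then 1 else if σ.getD d 0 = 0 then 0 else min (σ.getD d 0 + 1) (B + 1))
      else none := by
  unfold mstep condB
  congr 1
  simp only [eq_iff_iff, Bool.and_eq_true, Bool.or_eq_true, decide_eq_true_iff,
    List.all_eq_true, List.mem_range, Bool.not_eq_true']
  have e : ∀ (b : Bool) (p : Prop), (b = false ∨ p) ↔ (b = true → p) := by
    intro b p
    cases b <;> simp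
  simp only [e, and_assoc]

theorem poly_mstep {M : α → List (List Bool)} {ch : α → List (List ℕ)} {B c : α → ℕ}
    {σ : α → List ℕ} (hM : Poly M) (hch : Poly ch) (hB : Poly B) (hσ : Poly σ) (hc : Poly c) :
    Poly (fun a => mstep (ch a).length (B a) (EE (entry (M a)) (ch a)) (σ a) (c a)) := by
  have hget : ∀ {β : Type} [TEnc β] {f : β → α} {d : β → ℕ}, Poly f → Poly d →
      Poly (fun b => (σ (f b)).getD (d b) 0) := fun hf hd =>
    Poly.getD (hσ.comp hf) hd (Poly.const 0)
  have hcond : Poly (fun a => condB (ch a).length (B a) (EE (entry (M a)) (ch a)) (σ a) (c a)) := by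
    unfold condB
    refine Poly.and (Poly.decide_lt hc (Poly.length hch)) (Poly.or (Poly.and ?_ ?_)
      (Poly.and (Poly.and ?_ ?_) ?_))
    · exact Poly.decide_eq (hget Poly.id hc) (Poly.const 0)
    · refine Poly.all (l := fun a => List.range (ch a).length)
        (p := fun a d => !(EE (entry (M a)) (ch a) d (c a)) || (decide (1 ≤ (σ a).getD d 0) &&
          decide ((σ a).getD d 0 ≤ B a))) (UPoly.range (UPoly.length hch)) ?_
      refine Poly.or (Poly.not (poly_EE (hM.comp (Poly.fst Poly.id)) (hch.comp (Poly.fst Poly.id))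
        (Poly.snd Poly.id) (hc.comp (Poly.fst Poly.id)))) (Poly.and ?_ ?_)
      · exact Poly.decide_le (Poly.const 1) (hget (Poly.fst Poly.id) (Poly.snd Poly.id))
      · exact Poly.decide_le (hget (Poly.fst Poly.id) (Poly.snd Poly.id))
          (hB.comp (Poly.fst Poly.id))
    · exact Poly.decide_le (Poly.const 1) (hget Poly.id hc)
    · exact Poly.decide_le (hget Poly.id hc) hB
    · refine Poly.all (l := fun a => List.range (ch a).length)
        (p := fun a d => !(EE (entry (M a)) (ch a) (c a) d) || decide ((σ a).getD d 0 = 0))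
        (UPoly.range (UPoly.length hch)) ?_
      refine Poly.or (Poly.not (poly_EE (hM.comp (Poly.fst Poly.id)) (hch.comp (Poly.fst Poly.id))
        (hc.comp (Poly.fst Poly.id)) (Poly.snd Poly.id))) ?_
      exact Poly.decide_eq (hget (Poly.fst Poly.id) (Poly.snd Poly.id)) (Poly.const 0)
  refine (Poly.ite (p := fun a => condB (ch a).length (B a) (EE (entry (M a)) (ch a)) (σ a) (c a)
    = true) (Poly.decide_bool hcond) (Poly.some ?_) (Poly.const none)).congr
      fun a => (mstep_eq _ _ _ _ _).symm
  refine Poly.map (l := fun a => List.range (ch a).length) (F := fun a d =>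
    if d = c a then 1 else if (σ a).getD d 0 = 0 then 0 else min ((σ a).getD d 0 + 1) (B a + 1))
    (UPoly.range (UPoly.length hch)) ?_
  refine Poly.ite (p := fun x : α × ℕ => x.2 = c x.1) (Poly.decide_eq (Poly.snd Poly.id)
    (hc.comp (Poly.fst Poly.id))) (Poly.const 1) ?_
  refine Poly.ite (p := fun x : α × ℕ => (σ x.1).getD x.2 0 = 0)
    (Poly.decide_eq (hget (Poly.fst Poly.id) (Poly.snd Poly.id)) (Poly.const 0)) (Poly.const 0) ?_
  exact Poly.min (Poly.succ (hget (Poly.fst Poly.id) (Poly.snd Poly.id)))
    (Poly.succ (hB.comp (Poly.fst Poly.id)))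

/-! ### Exponents and words -/

theorem poly_dot {p v : α → List ℕ} (hp : Poly p) (hv : Poly v) :
    Poly (fun a => dot (p a) (v a)) := by
  unfold dot
  refine Poly.sum (Poly.map (l := fun a => List.range (v a).length)
    (F := fun a i => (p a).getD i 0 * (v a).getD i 0) (UPoly.range (UPoly.length hv)) ?_)
  exact Poly.mul (Poly.getD (hp.comp (Poly.fst Poly.id)) (Poly.snd Poly.id) (Poly.const 0))
    (Poly.getD (hv.comp (Poly.fst Poly.id)) (Poly.snd Poly.id) (Poly.const 0))

theorem poly_evS {v : α → List ℕ} {s : α → Spec} (hv : Poly v) (hs : Poly s) :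
    Poly (fun a => evS (v a) (s a)) := by
  unfold evS
  have h1 : Poly (fun a => v a ++ [1]) := Poly.append hv (Poly.const [1])
  exact Poly.div (Poly.sub (poly_dot (Poly.fst hs) h1) (poly_dot (Poly.fst (Poly.snd hs)) h1))
    (Poly.snd (Poly.snd hs))

theorem poly_evC {ch : α → List (List ℕ)} {s : α → Spec} (hch : Poly ch) (hs : Poly s) :
    UPoly (fun a => evC (ch a) (s a)) := by
  unfold evC
  refine UPoly.of_le (n := fun a => (ch a).flatten.length) (Poly.min (poly_evS ?_ hs)
    (Poly.length (Poly.flatten hch))) (UPoly.length (Poly.flatten hch))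
    fun a => Nat.min_le_right _ _
  exact Poly.map (l := ch) (F := fun _ l => l.length) hch (Poly.length (Poly.snd Poly.id))

theorem poly_expand {ch : α → List (List ℕ)} {W : α → Cert} (hch : Poly ch) (hW : Poly W) :
    Poly (fun a => expandS (evC (ch a)) (W a)) := by
  unfold expandS
  refine Poly.flatMap (l := W)
    (F := fun a b => (List.replicate (evC (ch a) b.2) b.1).flatten) hW ?_
  have h1 : UPoly (fun x : α × List ℕ × Spec => evC (ch x.1) x.2.2) :=
    poly_evC (hch.comp (Poly.fst Poly.id)) (Poly.snd (Poly.snd Poly.id))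
  refine (Poly.flatMap (l := fun x : α × List ℕ × Spec => List.replicate (evC (ch x.1) x.2.2) ())
    (F := fun x _ => x.2.1) h1 (Poly.fst (Poly.snd (Poly.fst Poly.id)))).congr fun x => ?_
  rw [List.flatMap_def, List.map_replicate]

theorem runF_bound (k B : ℕ) (E : ℕ → ℕ → Bool) (z : List ℕ) (q : List ℕ)
    (h : runF k B E z = some q) : q.length = k ∧ ∀ x ∈ q, x ≤ B + 1 := by
  induction z using List.reverseRecOn generalizing q with
  | nil =>
    simp only [runF, List.foldl_nil, Option.some.injEq] at h
    subst h
    refine ⟨by simp, fun x hx => ?_⟩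
    rw [List.mem_replicate] at hx
    omega
  | append_singleton z a ih =>
    unfold runF at h
    rw [List.foldl_append, List.foldl_cons, List.foldl_nil] at h
    change (runF k B E z).bind _ = some q at h
    cases h1 : runF k B E z with
    | none => rw [h1] at h; simp at h
    | some q1 =>
      rw [h1] at h
      simp only [Option.bind_some] at h
      unfold mstep at h
      split_ifs at h with hc
      rw [Option.some_inj] at h
      subst h
      refine ⟨by simp, fun x hx => ?_⟩
      rw [List.mem_map] at hx
      obtain ⟨d, _, rfl⟩ := hx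
      split_ifs
      · omega
      · omega
      · exact Nat.min_le_right _ _

theorem poly_runF {M : α → List (List Bool)} {ch : α → List (List ℕ)} {B : α → ℕ}
    {z : α → List ℕ} (hM : Poly M) (hch : Poly ch) (hB : UPoly B) (hz : Poly z) :
    Poly (fun a => runF (ch a).length (B a) (EE (entry (M a)) (ch a)) (z a)) := by
  unfold runF
  obtain ⟨r, hr⟩ := hch.sz_le
  obtain ⟨rB, hrB⟩ := hB.sz_le
  refine Poly.foldl (l := z) (s := fun a => some (List.replicate (ch a).length 0))
    (F := fun a o c => o.bind fun q => mstep (ch a).length (B a) (EE (entry (M a)) (ch a)) q c)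
    hz ?_ ?_ (r * (Polynomial.C 4 * rB + 6) + 4) ?_
  · refine Poly.some ?_
    refine Poly.congr (f := fun a => (ch a).map fun _ => 0) ?_ fun a => by
      simp [List.map_const']
    exact Poly.map (l := ch) (F := fun _ _ => 0) hch (Poly.const 0)
  · refine Poly.optBind (o := fun p : α × Option (List ℕ) × ℕ => p.2.1)
      (f := fun p q => mstep (ch p.1).length (B p.1) (EE (entry (M p.1)) (ch p.1)) q p.2.2)
      (Poly.fst (Poly.snd Poly.id)) ?_
    exact poly_mstep (hM.comp (Poly.fst (Poly.fst Poly.id))) (hch.comp (Poly.fst (Poly.fst Poly.id)))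
      (hB.toPoly.comp (Poly.fst (Poly.fst Poly.id))) (Poly.snd Poly.id)
      (Poly.snd (Poly.snd (Poly.fst Poly.id)))
  · intro a j _
    have h1 := hr a
    have h2 := length_lt_sz (ch a)
    have h3 : sz (List.replicate (B a) ()) ≤ rB.eval (sz a) := hrB a
    rw [sz_replicate_unit] at h3
    change sz (runF (ch a).length (B a) (EE (entry (M a)) (ch a)) ((z a).take j)) ≤ _
    simp only [Polynomial.eval_add, Polynomial.eval_mul, Polynomial.eval_C,
      Polynomial.eval_ofNat]
    cases h4 : runF (ch a).length (B a) (EE (entry (M a)) (ch a)) ((z a).take j) with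
    | none =>
      have : sz (none : Option (List ℕ)) = 1 := rfl
      omega
    | some q =>
      obtain ⟨h5, h6⟩ := runF_bound _ _ _ _ _ h4
      have h7 := sz_natList_le q (B a + 1) h6
      have h8 : sz (some q) = sz q + 2 := by
        change (T.node (toT q) T.nil).size = _
        rw [T.size_node]
        rfl
      have h9 : q.length * (4 * (B a + 1) + 2) ≤ r.eval (sz a) * (4 * rB.eval (sz a) + 6) :=
        Nat.mul_le_mul (by omega) (by omega)
      omega

/-- The verifier is polynomial. -/
theorem poly_chk {M : α → List (List Bool)} {B : α → ℕ} {W : α → Cert} (hM : Poly M)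
    (hB : Poly B) (hW : Poly W) : Poly (fun a => chk (M a) (B a) (W a)) := by
  unfold chk
  have hch := poly_chs hM
  have hz := poly_expand hch hW
  refine Poly.and ?_ (Poly.isSome (poly_runF hM hch ?_ hz))
  · refine Poly.all (l := fun a => List.range (chs (M a)).length)
      (p := fun a c => decide (((expandS (evC (chs (M a))) (W a)).filter
        fun b => decide (b = c)).length = ((chs (M a)).getD c []).length))
      (UPoly.range (UPoly.length hch)) ?_
    refine Poly.decide_eq (Poly.length ?_) (Poly.length (Poly.getD (hch.comp (Poly.fst Poly.id))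
      (Poly.snd Poly.id) (Poly.const [])))
    exact Poly.filter (l := fun x : α × ℕ => expandS (evC (chs (M x.1))) (W x.1))
      (p := fun x b => decide (b = x.2)) (hz.comp (Poly.fst Poly.id))
      (Poly.decide_eq (Poly.snd Poly.id) (Poly.snd (Poly.fst Poly.id)))
  · refine UPoly.of_le (n := fun a => 2 * (chs (M a)).length) (Poly.min hB
      (Poly.mul (Poly.const 2) (Poly.length hch))) (UPoly.mul (UPoly.const 2)
      (UPoly.length hch)) fun a => Nat.min_le_right _ _

theorem poly_dec {M : α → List (List Bool)} {B : α → ℕ} {w : α → List Unit} (hM : Poly M)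
    (hB : Poly B) (hw : Poly w) : Poly (fun a => dec (M a) (B a) (w a)) := by
  unfold dec
  refine Poly.any (l := fun a => List.range (w a).length) (p := fun a c =>
    match unbits Cert c.bits.dropLast with
    | none => false
    | some W => chk (M a) (B a) W) (UPoly.range (UPoly.length hw)) ?_
  refine (Poly.optCases (o := fun x : α × ℕ => unbits Cert x.2.bits.dropLast)
    (g := fun _ => false) (h := fun x W => chk (M x.1) (B x.1) W) ?_ (Poly.const false) ?_).congr
    fun x => ?_
  · refine poly_unbits.comp ?_
    refine (Poly.reverse (Poly.tail (Poly.reverse (Poly.natBits (n := fun x : α × ℕ => x.2)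
      (Poly.snd Poly.id))))).congr fun x => ?_
    rw [← List.dropLast_reverse, List.reverse_reverse]
  · exact poly_chk (hM.comp (Poly.fst (Poly.fst Poly.id))) (hB.comp (Poly.fst (Poly.fst Poly.id)))
      (Poly.snd Poly.id)
  · cases unbits Cert x.2.bits.dropLast <;> rfl

end Pool.Agent.NPC.H683BW
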