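import Pool.Agent.H683.BW.Defs

/-!
# Directed bandwidth of directed trees: statements of the parts

THEOREM. Directed Bandwidth on directed trees is fixed-parameter tractable with respect to the
width `w`.

PROOF. Decompose the tree into directed paths ((chains)) whose inner arcs `u → v` have
`outdeg u = 1 = indeg v`; there are `k ≤ 4 w` of them. Every directed tree has a topological
ordering with bandwidth at most `2 k` (order by levels), so we may assume `B ≤ 2 k`. An ordering
is the same as a word over the letters `0, …, k - 1` (the chains) in which letter `c` occurs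
`|chain c|` times and which is accepted by the deterministic automaton `mstep` whose states are the
vectors of the capped ages of the last occurrences of the letters. An accepted word can be
decomposed into a short accepted word and short cycles through states which it visits; by an
exchange argument the multiplicities of all but linearly independent cycles can be made small.
So there is a certificate of size `f(k)`.
-/

set_option autoImplicit false

namespace Pool.Agent.H683.BW

open Pool.Agent.NPC Pool.Agent.H633R2

/-! ### Automata -/

/-- The run of a deterministic automaton with partial transition function `step`. -/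
def run {Q α : Type} (step : Q → α → Option Q) : Q → List α → Option Q
  | q, [] => some q
  | q, a :: w => (step q a).bind fun q' => run step q' w

/-- The monitor. Letters are the chains `0, …, k - 1`, and `E d c` means that there is an arc from
the last vertex of chain `d` to the first vertex of chain `c`. The state `σ` is the list of the
ages: `0` if the chain has not been started, otherwise the number of steps since its last
occurrence, but at most `B + 1`. -/
def mstep (k B : ℕ) (E : ℕ → ℕ → Bool) (σ : List ℕ) (c : ℕ) : Option (List ℕ) :=
  if c < k ∧ ((σ.getD c 0 = 0 ∧ ∀ d < k, E d c = true → 1 ≤ σ.getD d 0 ∧ σ.getD d 0 ≤ B) ∨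
      (1 ≤ σ.getD c 0 ∧ σ.getD c 0 ≤ B ∧ ∀ d < k, E c d = true → σ.getD d 0 = 0)) then
    some ((List.range k).map fun d =>
      if d = c then 1 else if σ.getD d 0 = 0 then 0 else min (σ.getD d 0 + 1) (B + 1))
  else none

/-! ### Chains -/

/-- The out-neighbours of `u`. -/
def outs (M : List (List Bool)) (u : ℕ) : List ℕ :=
  (List.range M.length).filter fun v => entry M u v

/-- The in-neighbours of `v`. -/
def ins (M : List (List Bool)) (v : ℕ) : List ℕ :=
  (List.range M.length).filter fun u => entry M u v

/-- The arc `u → v` lies inside a chain. -/
def link (M : List (List Bool)) (u v : ℕ) : Bool :=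
  entry M u v && decide ((outs M u).length = 1) && decide ((ins M v).length = 1)

/-- The first vertices of the chains. -/
def heads (M : List (List Bool)) : List ℕ :=
  (List.range M.length).filter fun v => (List.range M.length).all fun u => !link M u v

/-- Extend a chain (in reverse order) by one vertex, if possible. -/
def grow (M : List (List Bool)) : List ℕ → List ℕ
  | [] => []
  | u :: l => match (List.range M.length).filter (fun v => link M u v) with
    | [] => u :: l
    | w :: _ => w :: u :: l

/-- The chain with first vertex `p`, in reverse order. -/
def revChain (M : List (List Bool)) (p : ℕ) : List ℕ := (grow M)^[M.length] [p]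

/-- The chains. -/
def chs (M : List (List Bool)) : List (List ℕ) :=
  (heads M).map fun p => (revChain M p).reverse

/-- `chs` is a decomposition of the digraph on `0, …, n - 1` with the arcs `A` into directed paths,
such that all other arcs go from a last vertex to a first vertex of a path. -/
structure Dec (n : ℕ) (A : ℕ → ℕ → Bool) (chs : List (List ℕ)) : Prop where
  nodup : chs.flatten.Nodup
  mem : ∀ v, v ∈ chs.flatten ↔ v < n
  ne : ∀ l ∈ chs, l ≠ []
  cons : ∀ l ∈ chs, ∀ (i : ℕ) (h : i + 1 < l.length), A l[i] l[i + 1] = true
  arc : ∀ u v, u < n → v < n → A u v = true →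
    (∃ l ∈ chs, ∃ (i : ℕ) (h : i + 1 < l.length), l[i] = u ∧ l[i + 1] = v) ∨
    ∃ l ∈ chs, ∃ l' ∈ chs, l.getLastD 0 = u ∧ l'.headD 0 = v

/-- The arcs between the chains. -/
def EE (A : ℕ → ℕ → Bool) (chs : List (List ℕ)) (c d : ℕ) : Bool :=
  A ((chs.getD c []).getLastD 0) ((chs.getD d []).headD 0)

/-- There is a topological ordering with bandwidth at most `B` (orderings as lists). -/
def Ord (n : ℕ) (A : ℕ → ℕ → Bool) (B : ℕ) : Prop :=
  ∃ l : List ℕ, l.Nodup ∧ (∀ v, v ∈ l ↔ v < n) ∧ ∀ u v, u < n → v < n → A u v = true →
    l.idxOf u < l.idxOf v ∧ l.idxOf v ≤ l.idxOf u + B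

/-- There is an accepted word with the right numbers of letters. -/
def WordOk (A : ℕ → ℕ → Bool) (chs : List (List ℕ)) (B : ℕ) (z : List ℕ) : Prop :=
  (∀ c, z.count c = (chs.getD c []).length) ∧
    (run (mstep chs.length B (EE A chs)) (List.replicate chs.length 0) z).isSome = true

/-- **S_ORD.** Orderings as bijections and as lists (take `l = List.ofFn f.symm`). -/
def S_ORD : Prop := ∀ (M : List (List Bool)) (B : ℕ),
  DirBandwidth (M, B) ↔ Ord M.length (entry M) B

/-- **S_CH.** The chains of a directed tree form a decomposition.
Proof: `link` is a partial injection on `0, …, n - 1` (if `link u v` and `link u v'` then `v = v'`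
since `outdeg u = 1`; if `link u v` and `link u' v` then `u = u'` since `indeg v = 1`). There are no
directed cycles because the underlying graph is a tree without opposite arcs (e.g. use an integer
valued potential, see `S_LEV`, or `IsAcyclic`). So every vertex is reached from exactly one head
by iterating the successor map, all vertices of one iteration are distinct (hence `n` iterations
of `grow` suffice, and they stop exactly at the last vertex). If `A u v` and not `link u v` then
`outdeg u ≥ 2` or `indeg v ≥ 2`, so `u` has no `link`-successor (it is the last vertex of its chain)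
and `v` has no `link`-predecessor (it is the first vertex of its chain). -/
def S_CH : Prop := ∀ M : List (List Bool), IsDirTree M → Dec M.length (entry M) (chs M)

/-- **S_K.** There are at most four times as many chains as the width.
Proof: the sources (indegree 0) form an antichain, and so do the sinks, so there are at most
`w = width M` of each. The tree has `n - 1` arcs (no opposite arcs: the arcs correspond to the
edges of `graphOf M`), so `∑_v (indeg v - 1) = -1`, i.e.
`∑_{indeg v ≥ 2} (indeg v - 1) = #sources - 1 ≤ w - 1`, and in the same way
`∑_{outdeg u ≥ 2} (outdeg u - 1) ≤ w - 1`. A head `v` is a source (at most `w`), or has indegree at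
least two (at most `w - 1` such `v`), or its only in-neighbour `u` has outdegree at least 2 (at most
`∑_{outdeg u ≥ 2} outdeg u ≤ 2 (w - 1)` such `v`). -/
def S_K : Prop := ∀ M : List (List Bool), IsDirTree M → (heads M).length ≤ 4 * width M

/-- **S_LEV.** A directed tree with a decomposition into `k` chains has an ordering with bandwidth
at most `2 k`.
Proof: a tree has a potential `h : V → ℤ` with `h v = h u + 1` for every arc `u → v` (for example
from `Pool.Agent.H683.FF.exists_rooted` in `Pool/Agent/H683/FF/TreeRooted.lean`, defining `h` by
recursion on the level, `h v = h (par v) ± 1`). Every chain has at most one vertex with `h v = t`,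
for each `t`. Sort the vertices by `(h v, v)`: between the ends of an arc `u → v` there are only
vertices with `h = h u` or `h = h v`, at most `2 k` in total. -/
def S_LEV : Prop := ∀ (M : List (List Bool)) (ch : List (List ℕ)), IsDirTree M →
  Dec M.length (entry M) ch → Ord M.length (entry M) (2 * ch.length)

/-- **S_EQ1.** From an ordering to an accepted word.
Proof: `z = l.map (index of the chain containing the vertex)`. Within a chain the vertices occur in
`l` in the order of the chain (by `cons`). For a prefix `w` of `z` for which the monitor does not
fail, its state is `fun d => if d ∈ w then min (w.reverse.idxOf d + 1) (B + 1) else 0` (induction on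
`w`). Check the condition of `mstep` for each letter, using `cons` and the definition of `EE`. -/
def S_EQ1 : Prop := ∀ (n : ℕ) (A : ℕ → ℕ → Bool) (ch : List (List ℕ)) (B : ℕ), Dec n A ch →
  Ord n A B → ∃ z, WordOk A ch B z

/-- **S_EQ2.** From an accepted word to an ordering.
Proof: let the vertex number `t` of the ordering be `(ch[z_t])[count z_t (z.take t)]`. All vertices
occur exactly once. For the arcs use `arc` and the state of the monitor as in `S_EQ1`. -/
def S_EQ2 : Prop := ∀ (n : ℕ) (A : ℕ → ℕ → Bool) (ch : List (List ℕ)) (B : ℕ) (z : List ℕ),
  Dec n A ch → WordOk A ch B z → Ord n A B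

/-! ### Pumping -/

/-- **S_PUMP.** Decomposition of an accepted word into a short accepted word and short cycles.
Proof by strong induction on the length of `z`. Let `N = S.card`. If `z.length ≤ (N + 1) ^ 2` take
`z0 = z` and `C = []`. Otherwise mark, for every state which is visited by the run, one position
(at most `N` positions). Among the `N + 1` disjoint windows of `N + 1` consecutive positions
(`j (N + 1), …, j (N + 1) + N` for `j ≤ N`) one contains no mark, and in it two positions `s < t`
have the same state. Remove the letters `s, …, t - 1`, a cycle of length at most `N`: the new word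
is accepted, it visits the same states, and is shorter. -/
def S_PUMP : Prop := ∀ (Q α : Type) [DecidableEq Q] [DecidableEq α] (step : Q → α → Option Q)
  (S : Finset Q) (q0 : Q), q0 ∈ S → (∀ q ∈ S, ∀ a q', step q a = some q' → q' ∈ S) →
  ∀ (z : List α) (f : Q), run step q0 z = some f →
    ∃ (z0 : List α) (C : List (Q × List α)), run step q0 z0 = some f ∧
      z0.length ≤ (S.card + 1) ^ 2 ∧
      (∀ p ∈ C, run step p.1 p.2 = some p.1 ∧ p.2 ≠ [] ∧ p.2.length ≤ S.card ∧
        ∃ u w, z0 = u ++ w ∧ run step q0 u = some p.1) ∧
      ∀ a, z.count a = z0.count a + (C.map fun p => p.2.count a).sum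

/-! ### Linear algebra -/

/-- Bound for the entries of the matrices in `S_GRAM`. -/
def RR (k N : ℕ) : ℕ := k.factorial * (k * N ^ 2 + 1) ^ k * (k * N + 1)

/-- **S_GRAM.** Left inverses with small entries. Here the vectors `G i` are the columns.
Proof: `ι` has at most `k` elements. Let `P i j = ∑ c, G i c * G j c` (the Gram matrix), an integer
matrix with entries at most `k N ^ 2`, positive definite, hence `d = det P > 0` (for example
`Matrix.PosDef.det_pos` over `ℝ`, `Matrix.PosSemidef` and `ker_mulVecLin_transpose_mul_self`), and
`d ≤ k! (k N ^ 2 + 1) ^ k` by `Matrix.det_le`. Take `A = adjugate P * G`; the entries of the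
adjugate are determinants of matrices with entries at most `k N ^ 2 + 1`. -/
def S_GRAM : Prop := ∀ (k N : ℕ) (ι : Type) [Fintype ι] [DecidableEq ι] (G : ι → Fin k → ℤ),
  (∀ i c, 0 ≤ G i c ∧ G i c ≤ N) → LinearIndependent ℚ (fun i c => (G i c : ℚ)) →
  ∃ (A : ι → Fin k → ℤ) (d : ℤ), 0 < d ∧ d ≤ RR k N ∧ (∀ i c, |A i c| ≤ RR k N) ∧
    ∀ i j, ∑ c, A i c * G j c = if i = j then d else 0

/-- Bound for the small multiplicities in `S_CAR`. -/
def LL (k N : ℕ) : ℕ := (k * N + 1) * RR k N

/-- **S_CAR.** An integer version of the theorem of Carathéodory.
Proof: the set of all `m' : D → ℕ` with `∑ m' g • g = ∑ m g • g` is finite, because every `g` is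
nonzero. Choose `m'` in it with `∑ (m' g) ^ 2` maximal. Suppose that the `g` with `m' g > LL k N`
are linearly dependent. Then there are a linearly independent subset `I` and another `h` of them
with `h` in the rational span of `I`. With `A`, `d` from `S_GRAM` for `I` we get
`d • h = ∑_{g ∈ I} (∑ c, A g c * h c) • g` (if `h = ∑ y_g g` then `∑ c, A g c * h c = d y_g`). So the
integer vector `μ` with `μ g = ∑ c, A g c * h c` for `g ∈ I`, `μ h = - d` and zero elsewhere satisfies
`∑ μ g • g = 0`, it is not zero, and `|μ g| ≤ LL k N`. So `m' + μ` and `m' - μ` are nonnegative and in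
the set, and one of them has a larger sum of squares: a contradiction. -/
def S_CAR : Prop := ∀ (k N : ℕ) (D : Finset (Fin k → ℕ)), (∀ g ∈ D, g ≠ 0 ∧ ∀ c, g c ≤ N) →
  ∀ m : (Fin k → ℕ) → ℕ, ∃ m' : (Fin k → ℕ) → ℕ,
    (∑ g ∈ D, m' g • g = ∑ g ∈ D, m g • g) ∧
    LinearIndependent ℚ (fun (g : {g // g ∈ D ∧ LL k N < m' g}) (c : Fin k) => ((g.1 c : ℕ) : ℚ))

end Pool.Agent.H683.BW
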